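import Mathlib

/-!
Exposing functionals and their behaviour under the insertion of two points near a vertex.
-/

namespace Pool.Agent.H.MP_2da123_co

open Filter Topology Set

section Expo

variable {E : Type*} [AddCommGroup E] [Module ℝ E]

/-- `l` is maximal on `X` exactly at the points of `F`. -/
def Exposes (X F : Set E) (l : E →ₗ[ℝ] ℝ) : Prop :=
  ∀ a ∈ F, ∀ y ∈ X, (y ∈ F → l y = l a) ∧ (y ∉ F → l y < l a)

theorem Exposes.eq {X F : Set E} {l : E →ₗ[ℝ] ℝ} (h : Exposes X F l) {a b : E}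
    (ha : a ∈ F) (hb : b ∈ F) (hbX : b ∈ X) : l b = l a := (h a ha b hbX).1 hb

theorem Exposes.lt {X F : Set E} {l : E →ₗ[ℝ] ℝ} (h : Exposes X F l) {a y : E}
    (ha : a ∈ F) (hy : y ∈ X) (hyF : y ∉ F) : l y < l a := (h a ha y hy).2 hyF

theorem Exposes.le {X F : Set E} {l : E →ₗ[ℝ] ℝ} (h : Exposes X F l) {a y : E}
    (ha : a ∈ F) (hy : y ∈ X) : l y ≤ l a := by
  by_cases hF : y ∈ F
  · exact (h.eq ha hF hy).le
  · exact (h.lt ha hy hF).le

theorem Exposes.inter {X F G : Set E} {l m : E →ₗ[ℝ] ℝ} (h : Exposes X F l)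
    (h' : Exposes X G m) : Exposes X (F ∩ G) (l + m) := by
  intro a ha y hy
  refine ⟨fun hyF => ?_, fun hyF => ?_⟩
  · simp only [LinearMap.add_apply]
    rw [h.eq ha.1 hyF.1 hy, h'.eq ha.2 hyF.2 hy]
  · simp only [LinearMap.add_apply]
    by_cases h1 : y ∈ F
    · have h2 : y ∉ G := fun h2 => hyF ⟨h1, h2⟩
      exact add_lt_add_of_le_of_lt (h.le ha.1 hy) (h'.lt ha.2 hy h2)
    · exact add_lt_add_of_lt_of_le (h.lt ha.1 hy h1) (h'.le ha.2 hy)

theorem Exposes.add {X F : Set E} {l m : E →ₗ[ℝ] ℝ} (h : Exposes X F l)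
    (h' : Exposes X F m) : Exposes X F (l + m) := by
  have := h.inter h'
  rwa [Set.inter_self] at this

theorem Exposes.smul {X F : Set E} {l : E →ₗ[ℝ] ℝ} (h : Exposes X F l) {c : ℝ} (hc : 0 < c) :
    Exposes X F (c • l) := by
  intro a ha y hy
  refine ⟨fun hyF => ?_, fun hyF => ?_⟩
  · simp only [LinearMap.smul_apply, smul_eq_mul]
    rw [h.eq ha hyF hy]
  · simp only [LinearMap.smul_apply, smul_eq_mul]
    exact mul_lt_mul_of_pos_left (h.lt ha hy hyF) hc

/-- The sign attached to a boolean. -/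
def sg (b : Bool) : ℝ := if b then 1 else -1

theorem sg_true : sg true = 1 := by simp [sg]
theorem sg_false : sg false = -1 := by simp [sg]

theorem sg_sq (b : Bool) : sg b * sg b = 1 := by cases b <;> simp [sg]

/-- The pair `a, b` lies on a face `F` of `X` which is exposed by functionals with all
possible signs on the directions at `a` and `b` (as far as these points are active). -/
def PairOK (X F : Set E) (A : E → Prop) (om : E → E) (a b : E) : Prop :=
  ∀ s t : Bool, ∃ l : E →ₗ[ℝ] ℝ, Exposes X F l ∧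
    (A a → 0 < sg s * l (om a)) ∧ (A b → 0 < sg t * l (om b))

theorem PairOK.symm {X F : Set E} {A : E → Prop} {om : E → E} {a b : E}
    (h : PairOK X F A om a b) : PairOK X F A om b a := by
  intro s t
  obtain ⟨l, h1, h2, h3⟩ := h t s
  exact ⟨l, h1, h3, h2⟩

theorem PairOK.mono {X F : Set E} {A A' : E → Prop} {om : E → E} {a b : E}
    (h : PairOK X F A om a b) (hA : ∀ y, A' y → A y) : PairOK X F A' om a b := by
  intro s t
  obtain ⟨l, h1, h2, h3⟩ := h s t
  exact ⟨l, h1, fun h => h2 (hA _ h), fun h => h3 (hA _ h)⟩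

theorem PairOK.exposed {X F : Set E} {A : E → Prop} {om : E → E} {a b : E}
    (h : PairOK X F A om a b) : ∃ l : E →ₗ[ℝ] ℝ, Exposes X F l := by
  obtain ⟨l, h1, -⟩ := h true true
  exact ⟨l, h1⟩

theorem PairOK.zero {X F : Set E} {A : E → Prop} {om : E → E} {u z : E}
    (h : PairOK X F A om u z) (hu : A u) (t : Bool) :
    ∃ l : E →ₗ[ℝ] ℝ, Exposes X F l ∧ l (om u) = 0 ∧ (A z → 0 < sg t * l (om z)) := by
  obtain ⟨l1, h1, h2, h3⟩ := h true t
  obtain ⟨l2, k1, k2, k3⟩ := h false t
  have p1 := h2 hu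
  have p2 := k2 hu
  rw [sg_true, one_mul] at p1
  rw [sg_false] at p2
  have p2' : 0 < - l2 (om u) := by linarith
  refine ⟨(- l2 (om u)) • l1 + (l1 (om u)) • l2, (h1.smul p2').add (k1.smul p1), ?_, ?_⟩
  · simp only [LinearMap.add_apply, LinearMap.smul_apply, smul_eq_mul]
    ring
  · intro hz
    simp only [LinearMap.add_apply, LinearMap.smul_apply, smul_eq_mul]
    have q1 := h3 hz
    have q2 := k3 hz
    have : sg t * (-l2 (om u) * l1 (om z) + l1 (om u) * l2 (om z))
        = (- l2 (om u)) * (sg t * l1 (om z)) + l1 (om u) * (sg t * l2 (om z)) := by ring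
    rw [this]
    positivity

theorem ev_lt_of_continuousAt {f g : ℝ → ℝ} (hf : ContinuousAt f 0) (hg : ContinuousAt g 0)
    (h : f 0 < g 0) : ∀ᶠ x in 𝓝[>] (0 : ℝ), f x < g x :=
  (hf.eventually_lt hg h).filter_mono nhdsWithin_le_nhds

theorem ev_pos : ∀ᶠ x in 𝓝[>] (0 : ℝ), 0 < x := self_mem_nhdsWithin

/-- Choice of `κ`. -/
theorem PairOK.ev_kappa {X F : Set E} {A : E → Prop} {om : E → E} {u z : E}
    (h : PairOK X F A om u z) (hu : A u) (d : E) (s t : Bool) :
    ∀ᶠ κ in 𝓝[>] (0 : ℝ), ∃ l : E →ₗ[ℝ] ℝ, Exposes X F l ∧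
      κ * |l d| < sg s * l (om u) ∧ (A z → 0 < sg t * l (om z)) := by
  obtain ⟨l, h1, h2, h3⟩ := h s t
  have := ev_lt_of_continuousAt (f := fun κ : ℝ => κ * |l d|) (g := fun _ => sg s * l (om u))
    (by fun_prop) (by fun_prop) (by simpa using h2 hu)
  filter_upwards [this] with κ hκ
  exact ⟨l, h1, hκ, h3⟩

/-- Choice of `ζ`. -/
theorem PairOK.ev_zeta {X F : Set E} {A : E → Prop} {om : E → E} {u z x : E}
    (h : PairOK X F A om u z) (hu : A u) (huF : u ∈ F) (hxX : x ∈ X) (hxF : x ∉ F)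
    {κ : ℝ} (hκ : 0 < κ) (θ : E) (s t : Bool) :
    ∀ᶠ ζ in 𝓝[>] (0 : ℝ), ∃ l : E →ₗ[ℝ] ℝ, Exposes X F l ∧
      |l (om u)| < - (κ * l (x - u)) ∧ 0 < sg s * l (om u + ζ • θ) ∧
      (A z → 0 < sg t * l (om z)) := by
  obtain ⟨l0, h01, h02, h03⟩ := h.zero hu t
  obtain ⟨l1, h11, h12, h13⟩ := h s t
  have hx0 : l0 (x - u) < 0 := by
    rw [map_sub]
    have := h01.lt huF hxX hxF
    linarith
  -- choose `λ`
  have hlam : ∀ᶠ c in 𝓝[>] (0 : ℝ), c * (|l1 (om u)| + κ * l1 (x - u)) < - (κ * l0 (x - u)) := by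
    apply ev_lt_of_continuousAt (by fun_prop) (by fun_prop)
    simp only [zero_mul]
    nlinarith
  obtain ⟨c, hc, hc0⟩ := (hlam.and ev_pos).exists
  set l : E →ₗ[ℝ] ℝ := l0 + c • l1 with hl
  have hle : Exposes X F l := h01.add (h11.smul hc0)
  have hlu : l (om u) = c * l1 (om u) := by
    simp [hl, h02]
  have habs : |l (om u)| < - (κ * l (x - u)) := by
    rw [hlu, abs_mul, abs_of_pos hc0]
    have : l (x - u) = l0 (x - u) + c * l1 (x - u) := by simp [hl]
    rw [this]
    nlinarith [hc]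
  have hs : 0 < sg s * l (om u) := by
    rw [hlu]
    have := h12 hu
    have e : sg s * (c * l1 (om u)) = c * (sg s * l1 (om u)) := by ring
    rw [e]
    positivity
  have hz : A z → 0 < sg t * l (om z) := by
    intro hz
    have e : sg t * l (om z) = sg t * l0 (om z) + c * (sg t * l1 (om z)) := by
      simp only [hl, LinearMap.add_apply, LinearMap.smul_apply, smul_eq_mul]; ring
    rw [e]
    have := h03 hz
    have := h13 hz
    positivity
  have hev : ∀ᶠ ζ in 𝓝[>] (0 : ℝ), 0 < sg s * (l (om u) + ζ * l θ) := by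
    apply ev_lt_of_continuousAt (by fun_prop) (by fun_prop)
    simpa using hs
  filter_upwards [hev] with ζ hζ
  refine ⟨l, hle, habs, ?_, hz⟩
  rwa [map_add, map_smul, smul_eq_mul]

/-- A functional exposing a face `F` containing `u` and `z`, positive on `c` and negative on `c'`,
yields functionals exposing the pair `u + δ c`, `z` after the insertion. -/
theorem ev_pair {X F : Set E} (hX : X.Finite) {l g : E →ₗ[ℝ] ℝ} (hl : Exposes X F l) {u z : E}
    (huX : u ∈ X) (huF : u ∈ F) (hzF : z ∈ F) (hzu : z ≠ u)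
    (hg : Exposes X {z} g) {c c' : E} (hc : 0 < l c) (hc' : l c' < 0) {v : E} {t : ℝ}
    (hv : 0 < t * l v) :
    ∀ᶠ δ in 𝓝[>] (0 : ℝ), ∃ l' : E →ₗ[ℝ] ℝ,
      Exposes (X ∪ {u + δ • c, u + δ • c'}) {u + δ • c, z} l' ∧ 0 < t * l' v := by
  have hgu : g u < g z := hg.lt (mem_singleton z) huX (by simpa using hzu.symm)
  set r : ℝ := (g z - g u)⁻¹ with hr
  have hrpos : 0 < r := by rw [hr]; exact inv_pos.mpr (by linarith)
  set g1 : E →ₗ[ℝ] ℝ := r • g with hg1
  have hg1e : Exposes X {z} g1 := hg.smul hrpos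
  have hg1u : g1 z = g1 u + 1 := by
    simp only [hg1, LinearMap.smul_apply, smul_eq_mul]
    have : r * (g z - g u) = 1 := by
      rw [hr]; exact inv_mul_cancel₀ (by linarith)
    linarith
  -- the multiplier
  set S : ℝ → ℝ := fun δ => δ * l c / (1 - δ * g1 c) with hS
  have hScont : ContinuousAt S 0 := by
    apply ContinuousAt.div (by fun_prop) (by fun_prop)
    simp
  have hS0 : S 0 = 0 := by simp [hS]
  have e1 : ∀ᶠ δ in 𝓝[>] (0 : ℝ), δ * g1 c < 1 := by
    apply ev_lt_of_continuousAt (by fun_prop) (by fun_prop); simp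
  have e2 : ∀ᶠ δ in 𝓝[>] (0 : ℝ), δ * g1 c' < 1 := by
    apply ev_lt_of_continuousAt (by fun_prop) (by fun_prop); simp
  have e3 : ∀ᶠ δ in 𝓝[>] (0 : ℝ), 0 < t * (l v + S δ * g1 v) := by
    apply ev_lt_of_continuousAt (by fun_prop) (by fun_prop)
    simpa [hS0] using hv
  have e4 : ∀ᶠ δ in 𝓝[>] (0 : ℝ), ∀ y ∈ X, y ∉ F → l y + S δ * g1 y < l z + S δ * g1 z := by
    rw [eventually_all_finite hX]
    intro y hy
    by_cases hyF : y ∈ F
    · exact Filter.Eventually.of_forall fun δ h => absurd hyF h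
    · have : ∀ᶠ δ in 𝓝[>] (0 : ℝ), l y + S δ * g1 y < l z + S δ * g1 z := by
        apply ev_lt_of_continuousAt (by fun_prop) (by fun_prop)
        simpa [hS0] using hl.lt hzF hy hyF
      filter_upwards [this] with δ h _ using h
  filter_upwards [e1, e2, e3, e4, ev_pos] with δ h1 h2 h3 h4 h0
  have hspos : 0 < S δ := by
    simp only [hS]
    apply div_pos (by positivity) (by linarith)
  have hseq : S δ * (1 - δ * g1 c) = δ * l c := by
    simp only [hS]
    exact div_mul_cancel₀ _ (by linarith)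
  have hlu : l u = l z := hl.eq hzF huF huX
  refine ⟨l + S δ • g1, ?_, ?_⟩
  · have keyp : (l + S δ • g1) (u + δ • c) = (l + S δ • g1) z := by
      simp only [LinearMap.add_apply, LinearMap.smul_apply, smul_eq_mul, map_add, map_smul]
      rw [hg1u, hlu]
      linarith
    -- all values are compared with the value at `z`
    have key : ∀ y ∈ X ∪ {u + δ • c, u + δ • c'}, y ≠ u + δ • c → y ≠ z →
        (l + S δ • g1) y < (l + S δ • g1) z := by
      intro y hy hy1 hy2
      rcases hy with hy | hy | hy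
      · simp only [LinearMap.add_apply, LinearMap.smul_apply, smul_eq_mul]
        by_cases hyF : y ∈ F
        · have a1 : l y = l z := hl.eq hzF hyF hy
          have a2 : g1 y < g1 z := hg1e.lt (mem_singleton z) hy (by simpa using hy2)
          have := mul_lt_mul_of_pos_left a2 hspos
          linarith
        · exact h4 y hy hyF
      · exact absurd hy hy1
      · rw [mem_singleton_iff] at hy
        subst hy
        simp only [LinearMap.add_apply, LinearMap.smul_apply, smul_eq_mul, map_add, map_smul]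
        rw [hg1u, hlu]
        have a1 : δ * l c' < 0 := mul_neg_of_pos_of_neg h0 hc'
        have a2 : S δ * (δ * g1 c') < S δ * 1 := mul_lt_mul_of_pos_left h2 hspos
        linarith
    intro a ha y hy
    have hval : (l + S δ • g1) a = (l + S δ • g1) z := by
      rcases ha with ha | ha
      · rw [ha, keyp]
      · rw [mem_singleton_iff] at ha; rw [ha]
    refine ⟨fun hyF => ?_, fun hyF => ?_⟩
    · rw [hval]
      rcases hyF with hyF | hyF
      · rw [hyF, keyp]
      · rw [mem_singleton_iff] at hyF; rw [hyF]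
    · rw [hval]
      simp only [mem_insert_iff, mem_singleton_iff, not_or] at hyF
      exact key y hy hyF.1 hyF.2
  · simpa [LinearMap.add_apply, LinearMap.smul_apply, smul_eq_mul] using h3

/-- Faces away from `u` stay exposed. -/
theorem ev_away {X F : Set E} (hFX : F ⊆ X) {l : E →ₗ[ℝ] ℝ} (hl : Exposes X F l) {u : E}
    (huX : u ∈ X) (huF : u ∉ F) (c c' : E) :
    ∀ᶠ δ in 𝓝[>] (0 : ℝ), Exposes (X ∪ {u + δ • c, u + δ • c'}) F l := by
  rcases F.eq_empty_or_nonempty with hF | ⟨a0, ha0⟩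
  · subst hF
    exact Filter.Eventually.of_forall fun δ a ha => absurd ha (notMem_empty a)
  have e1 : ∀ᶠ δ in 𝓝[>] (0 : ℝ), l u + δ * l c < l a0 := by
    apply ev_lt_of_continuousAt (by fun_prop) (by fun_prop)
    simpa using hl.lt ha0 huX huF
  have e2 : ∀ᶠ δ in 𝓝[>] (0 : ℝ), l u + δ * l c' < l a0 := by
    apply ev_lt_of_continuousAt (by fun_prop) (by fun_prop)
    simpa using hl.lt ha0 huX huF
  filter_upwards [e1, e2] with δ h1 h2
  intro a ha y hy
  have haa : l a0 = l a := hl.eq ha ha0 (hFX ha0)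
  refine ⟨fun hyF => hl.eq ha hyF (hFX hyF), fun hyF => ?_⟩
  rcases hy with hy | hy | hy
  · exact hl.lt ha hy hyF
  · rw [hy, map_add, map_smul, smul_eq_mul, ← haa]; exact h1
  · rw [mem_singleton_iff] at hy
    rw [hy, map_add, map_smul, smul_eq_mul, ← haa]; exact h2

/-- Faces through `u` whose functional decreases along both new directions stay exposed. -/
theorem Exposes.near {X F : Set E} (hFX : F ⊆ X) {l : E →ₗ[ℝ] ℝ} (hl : Exposes X F l) {u : E}
    (huF : u ∈ F) {c c' : E} (hc : l c < 0) (hc' : l c' < 0) {δ : ℝ} (hδ : 0 < δ) :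
    Exposes (X ∪ {u + δ • c, u + δ • c'}) F l := by
  intro a ha y hy
  have hua : l u = l a := hl.eq ha huF (hFX huF)
  refine ⟨fun hyF => hl.eq ha hyF (hFX hyF), fun hyF => ?_⟩
  rcases hy with hy | hy | hy
  · exact hl.lt ha hy hyF
  · rw [hy, map_add, map_smul, smul_eq_mul, ← hua]
    nlinarith
  · rw [mem_singleton_iff] at hy
    rw [hy, map_add, map_smul, smul_eq_mul, ← hua]
    nlinarith

/-- Faces through `u` whose functional vanishes on both new directions absorb the new points. -/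
theorem Exposes.absorb {X F : Set E} (hFX : F ⊆ X) {l : E →ₗ[ℝ] ℝ} (hl : Exposes X F l) {u : E}
    (huF : u ∈ F) {c c' : E} (hc : l c = 0) (hc' : l c' = 0) (δ : ℝ) :
    Exposes (X ∪ {u + δ • c, u + δ • c'}) (F ∪ {u + δ • c, u + δ • c'}) l := by
  have hval : ∀ a ∈ F ∪ {u + δ • c, u + δ • c'}, l a = l u := by
    intro a ha
    rcases ha with ha | ha | ha
    · exact hl.eq huF ha (hFX ha)
    · rw [ha, map_add, map_smul, hc]; simp
    · rw [mem_singleton_iff] at ha
      rw [ha, map_add, map_smul, hc']; simp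
  intro a ha y hy
  refine ⟨fun hyF => by rw [hval a ha, hval y hyF], fun hyF => ?_⟩
  rw [hval a ha]
  rcases hy with hy | hy
  · exact hl.lt huF hy (fun h => hyF (Or.inl h))
  · exact absurd (Or.inr hy) hyF

end Expo

end Pool.Agent.H.MP_2da123_co
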