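import Mathlib

/-!
Definitions for MP_2da123_co: graphs of convex polytopes and joins with complete graphs.
-/

namespace Pool.Agent.H.MP_2da123_co

/-- The space `ℝ^d` (only its linear structure and its topology are used). -/
abbrev Eu (d : ℕ) := Fin d → ℝ

/-- `P` is a convex polytope of dimension `d` in `ℝ^d`: the convex hull of a finite set, with
nonempty interior. -/
def IsPolytope (d : ℕ) (P : Set (Eu d)) : Prop :=
  (∃ S : Set (Eu d), S.Finite ∧ P = convexHull ℝ S) ∧ (interior P).Nonempty

/-- The graph of a convex set `P`: its vertices are the extreme points of `P`; two different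
vertices are adjacent exactly when the segment joining them is an exposed face of `P`. -/
def polytopeGraph {d : ℕ} (P : Set (Eu d)) : SimpleGraph (P.extremePoints ℝ) where
  Adj u v := u ≠ v ∧ IsExposed ℝ P (segment ℝ (u : Eu d) (v : Eu d))
  symm := by
    constructor
    intro u v h
    refine ⟨h.1.symm, ?_⟩
    rw [segment_symm]
    exact h.2
  loopless := by
    constructor
    intro u h
    exact h.1 rfl

/-- `G` is `d`-polytopal: isomorphic to the graph of some `d`-polytope. -/
def IsPolytopal {V : Type} (d : ℕ) (G : SimpleGraph V) : Prop :=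
  ∃ P : Set (Eu d), IsPolytope d P ∧ Nonempty (G ≃g polytopeGraph P)

/-- The join `G + K_n` of `G` with the complete graph on `n` vertices. -/
def joinComplete {V : Type} (G : SimpleGraph V) (n : ℕ) : SimpleGraph (V ⊕ Fin n) where
  Adj
    | Sum.inl a, Sum.inl b => G.Adj a b
    | Sum.inl _, Sum.inr _ => True
    | Sum.inr _, Sum.inl _ => True
    | Sum.inr i, Sum.inr j => i ≠ j
  symm := by
    constructor
    rintro (a | a) (b | b) h
    · exact G.adj_symm h
    · trivial
    · trivial
    · exact fun h' => h h'.symm
  loopless := by
    constructor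
    rintro (a | a) h
    · exact G.loopless.irrefl a h
    · exact h rfl

/-- The set of all dimensions `d` such that `G + K_n` is `d`-polytopal for some `n ≥ 1`;
its least element is the number `d(G)` of the problem. -/
def joinDims {V : Type} (G : SimpleGraph V) : Set ℕ :=
  {d | ∃ n : ℕ, 1 ≤ n ∧ IsPolytopal d (joinComplete G n)}

/-- `G` has at least three vertices and a Hamiltonian cycle such that, when the vertices are drawn
in this cyclic order as the vertices of a convex polygon, no two edges of `G` cross
(equivalently, `G` is a `2`-connected outerplanar graph). -/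
def IsHamOuterplanar {V : Type} (G : SimpleGraph V) : Prop :=
  ∃ (m : ℕ) (e : Fin m ≃ V), 3 ≤ m ∧
    (∀ i j : Fin m, (j : ℕ) = ((i : ℕ) + 1) % m → G.Adj (e i) (e j)) ∧
    (∀ i j k l : Fin m, i < j → j < k → k < l → ¬ (G.Adj (e i) (e k) ∧ G.Adj (e j) (e l)))

/-- `G` is a path with at least three vertices. -/
def IsLongPath {V : Type} (G : SimpleGraph V) : Prop :=
  ∃ (m : ℕ) (_ : 3 ≤ m), Nonempty (G ≃g SimpleGraph.pathGraph m)

open Classical in
/-- The value of `d(G)`: it is `0` for the null graph, `1` for `K_1`, `2` for `K_2`, `3` for the
Hamiltonian outerplanar graphs, the paths with at least three vertices and the graph consisting of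
two isolated vertices, and `4` for all other finite graphs. -/
noncomputable def joinDim {V : Type} [Fintype V] (G : SimpleGraph V) : ℕ :=
  if Fintype.card V = 0 then 0
  else if Fintype.card V = 1 then 1
  else if Fintype.card V = 2 ∧ G = ⊤ then 2
  else if IsHamOuterplanar G ∨ IsLongPath G ∨ (Fintype.card V = 2 ∧ G = ⊥) then 3
  else 4

end Pool.Agent.H.MP_2da123_co
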