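import Pool.Agent.H.MP_2da123_co.Defs

/-!
A criterion for a graph to be `d`-polytopal.
-/

namespace Pool.Agent.H.MP_2da123_co

open Set

theorem le_of_mem_convexHull {E : Type*} [AddCommGroup E] [Module ℝ E] {S : Set E}
    {l : E →ₗ[ℝ] ℝ} {M : ℝ} (hS : ∀ y ∈ S, l y ≤ M) {x : E} (hx : x ∈ convexHull ℝ S) :
    l x ≤ M := by
  have h1 : convexHull ℝ S ⊆ {y | l y ≤ M} :=
    convexHull_min hS (convex_halfSpace_le (LinearMap.isLinear l) M)
  exact h1 hx

theorem mem_face_of_mem_convexHull {E : Type*} [AddCommGroup E] [Module ℝ E] {S : Set E}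
    {l : E →ₗ[ℝ] ℝ} {M : ℝ} (hS : ∀ y ∈ S, l y ≤ M) {x : E} (hx : x ∈ convexHull ℝ S)
    (hxM : l x = M) : x ∈ convexHull ℝ {y ∈ S | l y = M} := by
  classical
  rw [convexHull_eq] at hx
  obtain ⟨ι, t, w, z, hw0, hw1, hz, rfl⟩ := hx
  have hcm : t.centerMass w z = (t.filter fun i => w i ≠ 0).centerMass w z :=
    (Finset.centerMass_filter_ne_zero z).symm
  rw [hcm]
  have hsum : ∑ i ∈ t, w i * (M - l (z i)) = 0 := by
    have h1 : l (t.centerMass w z) = ∑ i ∈ t, w i * l (z i) := by
      rw [Finset.centerMass_eq_of_sum_1 _ _ hw1, map_sum]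
      simp
    rw [h1] at hxM
    have h2 : ∑ i ∈ t, w i * (M - l (z i)) = (∑ i ∈ t, w i) * M - ∑ i ∈ t, w i * l (z i) := by
      rw [Finset.sum_mul, ← Finset.sum_sub_distrib]
      apply Finset.sum_congr rfl
      intro i _
      ring
    rw [h2, hw1, hxM]
    ring
  have hterm : ∀ i ∈ t, w i * (M - l (z i)) = 0 := by
    rw [Finset.sum_eq_zero_iff_of_nonneg] at hsum
    · exact hsum
    · intro i hi
      exact mul_nonneg (hw0 i hi) (by linarith [hS _ (hz i hi)])
  apply Finset.centerMass_mem_convexHull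
  · intro i hi
    exact hw0 i (Finset.mem_filter.mp hi).1
  · have : ∑ i ∈ t.filter (fun i => w i ≠ 0), w i = ∑ i ∈ t, w i := by
      rw [Finset.sum_filter_ne_zero]
    rw [this, hw1]
    norm_num
  · intro i hi
    obtain ⟨hi1, hi2⟩ := Finset.mem_filter.mp hi
    refine ⟨hz i hi1, ?_⟩
    rcases mul_eq_zero.mp (hterm i hi1) with h | h
    · exact absurd h hi2
    · linarith

/-- Criterion for `d`-polytopality. -/
theorem isPolytopal_of {d : ℕ} {J : Type} [Finite J] (H : SimpleGraph J) (p : J → Eu d)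
    (hv : ∀ a, ∃ l : Eu d →ₗ[ℝ] ℝ, ∀ y, y ≠ a → l (p y) < l (p a))
    (he : ∀ a b, H.Adj a b → ∃ l : Eu d →ₗ[ℝ] ℝ, l (p a) = l (p b) ∧
      ∀ y, y ≠ a → y ≠ b → l (p y) < l (p a))
    (hn : ∀ a b, a ≠ b → ¬ H.Adj a b → ∃ s : ℝ, 0 < s ∧ s < 1 ∧
      (1 - s) • p a + s • p b ∈ convexHull ℝ (p '' {y | y ≠ a ∧ y ≠ b}))
    (hi : (interior (convexHull ℝ (range p))).Nonempty) : IsPolytopal d H := by
  classical
  set P : Set (Eu d) := convexHull ℝ (range p) with hP
  have hpP : ∀ a, p a ∈ P := fun a => subset_convexHull ℝ _ (mem_range_self a)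
  have hinj : Function.Injective p := by
    intro a b hab
    by_contra hne
    obtain ⟨l, hl⟩ := hv a
    have := hl b (Ne.symm hne)
    rw [hab] at this
    exact lt_irrefl _ this
  have hext : ∀ a, p a ∈ P.extremePoints ℝ := by
    intro a
    obtain ⟨l, hl⟩ := hv a
    have hle : ∀ y ∈ range p, l y ≤ l (p a) := by
      rintro _ ⟨y, rfl⟩
      by_cases hy : y = a
      · rw [hy]
      · exact (hl y hy).le
    have huniq : ∀ x ∈ P, l x = l (p a) → x = p a := by
      intro x hx hxa
      have := mem_face_of_mem_convexHull hle hx hxa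
      have e : {y ∈ range p | l y = l (p a)} = {p a} := by
        ext y
        simp only [mem_ofPred_eq, mem_singleton_iff]
        constructor
        · rintro ⟨⟨b, rfl⟩, h2⟩
          by_contra hne
          have : b ≠ a := fun e => hne (by rw [e])
          exact (hl b this).ne h2
        · rintro rfl
          exact ⟨mem_range_self a, rfl⟩
      rw [e, convexHull_singleton] at this
      exact this
    rw [mem_extremePoints]
    refine ⟨hpP a, ?_⟩
    intro x1 hx1 x2 hx2 hx
    obtain ⟨α, β, hα, hβ, hαβ, hxe⟩ := hx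
    have h1 : l x1 ≤ l (p a) := le_of_mem_convexHull hle hx1
    have h2 : l x2 ≤ l (p a) := le_of_mem_convexHull hle hx2
    have h3 : α * l x1 + β * l x2 = l (p a) := by
      rw [← hxe]; simp
    have h4 : l x1 = l (p a) := by
      by_contra hne
      have : l x1 < l (p a) := lt_of_le_of_ne h1 hne
      have : α * l x1 + β * l x2 < (α + β) * l (p a) := by nlinarith
      rw [hαβ] at this; linarith
    have h5 : l x2 = l (p a) := by
      by_contra hne
      have : l x2 < l (p a) := lt_of_le_of_ne h2 hne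
      have : α * l x1 + β * l x2 < (α + β) * l (p a) := by nlinarith
      rw [hαβ] at this; linarith
    exact ⟨huniq x1 hx1 h4, huniq x2 hx2 h5⟩
  let φ : J → P.extremePoints ℝ := fun a => ⟨p a, hext a⟩
  have hφ : Function.Bijective φ := by
    constructor
    · intro a b hab
      exact hinj (congrArg Subtype.val hab)
    · rintro ⟨x, hx⟩
      obtain ⟨a, ha⟩ := extremePoints_convexHull_subset hx
      exact ⟨a, Subtype.ext ha⟩
  refine ⟨P, ⟨⟨range p, finite_range p, rfl⟩, hi⟩, ⟨⟨Equiv.ofBijective φ hφ, ?_⟩⟩⟩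
  intro a b
  change (φ a ≠ φ b ∧ IsExposed ℝ P (segment ℝ (p a) (p b))) ↔ H.Adj a b
  constructor
  · rintro ⟨hab, hexp⟩
    by_contra hadj
    have hab' : a ≠ b := fun e => hab (by rw [e])
    obtain ⟨s, hs0, hs1, hmem⟩ := hn a b hab' hadj
    obtain ⟨l, hl⟩ := hexp ⟨p a, left_mem_segment ℝ _ _⟩
    set z : Eu d := (1 - s) • p a + s • p b with hz
    have hzseg : z ∈ segment ℝ (p a) (p b) :=
      ⟨1 - s, s, by linarith, by linarith, by ring, rfl⟩
    have hzmax := hl ▸ hzseg
    obtain ⟨hzP, hzM⟩ := hzmax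
    have hle : ∀ y ∈ p '' {y | y ≠ a ∧ y ≠ b}, (l : Eu d →ₗ[ℝ] ℝ) y ≤ l z := by
      rintro _ ⟨y, -, rfl⟩
      exact hzM _ (hpP y)
    have hface := mem_face_of_mem_convexHull hle hmem rfl
    have hne : {y ∈ p '' {y | y ≠ a ∧ y ≠ b} | (l : Eu d →ₗ[ℝ] ℝ) y = l z}.Nonempty := by
      rw [← convexHull_nonempty_iff (𝕜 := ℝ)]
      exact ⟨z, hface⟩
    obtain ⟨_, ⟨y, ⟨hya, hyb⟩, rfl⟩, hyl⟩ := hne
    have hyseg : p y ∈ segment ℝ (p a) (p b) := by
      rw [hl]
      refine ⟨hpP y, fun q hq => ?_⟩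
      have := hzM q hq
      have h2 : l (p y) = l z := hyl
      rw [h2]; exact this
    have hyext := hext y
    rw [mem_extremePoints] at hyext
    rcases (segment_eq_union_aux hyseg) with h | h | h
    · exact hya (hinj h)
    · exact hyb (hinj h)
    · have := (hyext.2 _ (hpP a) _ (hpP b) h).1
      exact hya (hinj this.symm)
  · intro hadj
    have hab : a ≠ b := hadj.ne
    refine ⟨fun e => hab (hinj (congrArg Subtype.val e)), ?_⟩
    intro _
    obtain ⟨l, hl1, hl2⟩ := he a b hadj
    have hle : ∀ y ∈ range p, l y ≤ l (p a) := by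
      rintro _ ⟨y, rfl⟩
      by_cases hy : y = a
      · rw [hy]
      · by_cases hy' : y = b
        · rw [hy', hl1]
        · exact (hl2 y hy hy').le
    refine ⟨LinearMap.toContinuousLinearMap l, ?_⟩
    ext x
    simp only [mem_ofPred_eq, LinearMap.coe_toContinuousLinearMap']
    constructor
    · intro hx
      have hxP : x ∈ P := (convex_convexHull ℝ _).segment_subset (hpP a) (hpP b) hx
      refine ⟨hxP, fun y hy => ?_⟩
      obtain ⟨α, β, hα, hβ, hαβ, hxe⟩ := hx
      have h3 : l x = l (p a) := by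
        rw [← hxe, map_add, map_smul, map_smul, ← hl1, smul_eq_mul, smul_eq_mul, ← add_mul, hαβ,
          one_mul]
      rw [h3]
      exact le_of_mem_convexHull hle hy
    · rintro ⟨hxP, hxM⟩
      have h3 : l x = l (p a) := le_antisymm (le_of_mem_convexHull hle hxP) (hxM _ (hpP a))
      have := mem_face_of_mem_convexHull hle hxP h3
      have e : {y ∈ range p | l y = l (p a)} = {p a, p b} := by
        ext y
        simp only [mem_ofPred_eq, mem_insert_iff, mem_singleton_iff]
        constructor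
        · rintro ⟨⟨c, rfl⟩, h2⟩
          by_contra hne
          push Not at hne
          have h4 : c ≠ a := fun e => hne.1 (by rw [e])
          have h5 : c ≠ b := fun e => hne.2 (by rw [e])
          exact (hl2 c h4 h5).ne h2
        · rintro (rfl | rfl)
          · exact ⟨mem_range_self a, rfl⟩
          · exact ⟨mem_range_self b, hl1.symm⟩
      rw [e, convexHull_pair] at this
      exact this
where
  segment_eq_union_aux {d : ℕ} {a b y : Eu d} (h : y ∈ segment ℝ a b) :
      y = a ∨ y = b ∨ y ∈ openSegment ℝ a b := by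
    have := insert_endpoints_openSegment ℝ a b
    rw [← this] at h
    simpa using h

end Pool.Agent.H.MP_2da123_co
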