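import Pool.Agent.H.MP_2da123_co.Moment
import Pool.Agent.H.MP_2da123_co.PolyGraph

/-!
Every join `G + K_n` with suitable `n` is `4`-polytopal.
-/

namespace Pool.Agent.H.MP_2da123_co

open Set Module Filter Topology

/-- Exposed edges are stable under small perturbations. -/
theorem perturb_edge {E : Type*} [AddCommGroup E] [Module ℝ E] {J : Type*} [Finite J]
    (p : ℝ → J → E) (hc : ∀ (l : E →ₗ[ℝ] ℝ) a, ContinuousAt (fun c => l (p c a)) 0)
    {a b : J} {l : E →ₗ[ℝ] ℝ} (hne : p 0 a ≠ p 0 b) (hab : l (p 0 a) = l (p 0 b))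
    (hl : ∀ y, y ≠ a → y ≠ b → l (p 0 y) < l (p 0 a)) :
    ∀ᶠ c in 𝓝[>] (0 : ℝ), ∃ l' : E →ₗ[ℝ] ℝ, l' (p c a) = l' (p c b) ∧
      ∀ y, y ≠ a → y ≠ b → l' (p c y) < l' (p c a) := by
  obtain ⟨h, hh, -⟩ := Submodule.exists_le_ker_of_notMem (p := (⊥ : Submodule ℝ E))
    (v := p 0 a - p 0 b) (by simpa [sub_eq_zero] using hne)
  have hh' : h (p 0 a) - h (p 0 b) ≠ 0 := by rwa [← map_sub]
  set S : ℝ → ℝ := fun c => (l (p c b) - l (p c a)) / (h (p c a) - h (p c b)) with hS
  have hScont : ContinuousAt S 0 :=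
    ((hc l b).sub (hc l a)).div ((hc h a).sub (hc h b)) hh'
  have hS0 : S 0 = 0 := by simp [hS, hab]
  have e1 : ∀ᶠ c in 𝓝[>] (0 : ℝ), h (p c a) - h (p c b) ≠ 0 :=
    (((hc h a).sub (hc h b)).eventually_ne hh').filter_mono nhdsWithin_le_nhds
  have e2 : ∀ᶠ c in 𝓝[>] (0 : ℝ), ∀ y, y ≠ a → y ≠ b →
      l (p c y) + S c * h (p c y) < l (p c a) + S c * h (p c a) := by
    rw [eventually_all]
    intro y
    by_cases hy : y ≠ a ∧ y ≠ b
    · have : ∀ᶠ c in 𝓝[>] (0 : ℝ),
          l (p c y) + S c * h (p c y) < l (p c a) + S c * h (p c a) := by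
        apply ev_lt_of_continuousAt ((hc l y).add (hScont.mul (hc h y)))
          ((hc l a).add (hScont.mul (hc h a)))
        have := hl y hy.1 hy.2
        simpa [hS0] using this
      filter_upwards [this] with c hc _ _ using hc
    · exact Filter.Eventually.of_forall fun c h1 h2 => absurd ⟨h1, h2⟩ hy
  filter_upwards [e1, e2] with c h1 h2
  refine ⟨l + S c • h, ?_, ?_⟩
  · have h3 : S c * (h (p c a) - h (p c b)) = l (p c b) - l (p c a) := by
      simp only [hS]
      exact div_mul_cancel₀ _ h1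
    simp only [LinearMap.add_apply, LinearMap.smul_apply, smul_eq_mul]
    linarith
  · intro y hya hyb
    simpa [LinearMap.add_apply, LinearMap.smul_apply, smul_eq_mul] using h2 y hya hyb

theorem affineSpan_K0set (m : ℕ) : affineSpan ℝ (K0set m) = ⊤ := by
  have hind : AffineIndependent ℝ (fun i : Fin 5 => gam ((m + (i : ℕ) : ℕ) : ℝ)) := by
    rw [affineIndependent_iff]
    intro s w hw0 hw1
    -- extend the weights by zero
    set v : Fin 5 → ℝ := fun i => if i ∈ s then w i else 0 with hv
    have hsum : ∀ f : Fin 5 → ℝ, ∑ i, v i * f i = ∑ i ∈ s, w i * f i := by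
      intro f
      simp only [hv, ite_mul, zero_mul]
      rw [Finset.sum_ite_mem, Finset.univ_inter]
    have hcoord : ∀ j : Fin 4, ∑ i ∈ s, w i * (gam ((m + (i : ℕ) : ℕ) : ℝ)) j = 0 := by
      intro j
      have := congrFun hw1 j
      simpa [Finset.sum_apply] using this
    have hinj : Function.Injective (fun i : Fin 5 => (((m + (i : ℕ) : ℕ) : ℝ))) := by
      intro i j hij
      have h1 : (((m + (i : ℕ) : ℕ) : ℝ)) = ((m + (j : ℕ) : ℕ) : ℝ) := hij
      have h2 : (m + (i : ℕ) : ℕ) = m + j := by exact_mod_cast h1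
      exact Fin.ext (by omega)
    have hzero : v = 0 := by
      apply Matrix.eq_zero_of_forall_pow_sum_mul_pow_eq_zero hinj
      intro j
      rw [hsum]
      fin_cases j
      · simpa using hw0
      · have := hcoord 0
        simpa [gam] using this
      · have := hcoord 1
        simpa [gam] using this
      · have := hcoord 2
        simpa [gam] using this
      · have := hcoord 3
        simpa [gam] using this
    intro i hi
    have := congrFun hzero i
    simpa [hv, hi] using this
  have := hind.affineSpan_eq_top_iff_card_eq_finrank_add_one.2 (by simp)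
  exact this

theorem IsPolytopal.congr {V W : Type} {d : ℕ} {G : SimpleGraph V} {H : SimpleGraph W}
    (e : G ≃g H) (h : IsPolytopal d G) : IsPolytopal d H := by
  obtain ⟨P, hP, ⟨φ⟩⟩ := h
  exact ⟨P, hP, ⟨e.symm.trans φ⟩⟩

/-- Isomorphic graphs have isomorphic joins. -/
def joinIso {V W : Type} {G : SimpleGraph V} {H : SimpleGraph W} (e : G ≃g H) (n : ℕ) :
    joinComplete G n ≃g joinComplete H n where
  toEquiv := Equiv.sumCongr e.toEquiv (Equiv.refl _)
  map_rel_iff' := by
    rintro (a | a) (b | b)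
    · exact e.map_rel_iff'
    · exact Iff.rfl
    · exact Iff.rfl
    · exact Iff.rfl

theorem exists_polytopal_four {m : ℕ} (hm : 2 ≤ m) (G : SimpleGraph (Fin m)) :
    ∃ n : ℕ, 1 ≤ n ∧ IsPolytopal 4 (joinComplete G n) := by
  classical
  obtain ⟨K, om, D, hK0, hI⟩ := stage_all G
  set X : Set (Eu 4) := Vset m ∪ K with hX
  have hVmem : ∀ i : Fin m, gam (i : ℕ) ∈ Vset m := fun i => ⟨i, rfl⟩
  have hVX : ∀ i : Fin m, gam (i : ℕ) ∈ X := fun i => Or.inl (hVmem i)
  have hKX : ∀ k ∈ K, k ∈ X := fun k hk => Or.inr hk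
  have hVK : ∀ (i : Fin m), ∀ k ∈ K, gam (i : ℕ) ≠ k := fun i k hk e =>
    hI.disj _ (hVmem i) (e ▸ hk)
  have hVinj : ∀ i j : Fin m, gam (i : ℕ) = gam (j : ℕ) → i = j := fun i j e =>
    Fin.ext (gam_nat_inj e)
  -- three additional points
  have hk : ∀ i : Fin 5, gam ((m + (i : ℕ) : ℕ) : ℝ) ∈ K := fun i => hK0 ⟨i, rfl⟩
  have hkne : ∀ i j : Fin 5, gam ((m + (i : ℕ) : ℕ) : ℝ) = gam ((m + (j : ℕ) : ℕ) : ℝ) → i = j := by
    intro i j e
    have := gam_nat_inj e
    exact Fin.ext (by omega)
  set k1 := gam ((m + ((0 : Fin 5) : ℕ) : ℕ) : ℝ) with hk1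
  set k2 := gam ((m + ((1 : Fin 5) : ℕ) : ℕ) : ℝ) with hk2
  set k3 := gam ((m + ((2 : Fin 5) : ℕ) : ℕ) : ℝ) with hk3
  have hk12 : k1 ≠ k2 := fun e => by have := hkne 0 1 e; simp at this
  have hk13 : k1 ≠ k3 := fun e => by have := hkne 0 2 e; simp at this
  have hk23 : k2 ≠ k3 := fun e => by have := hkne 1 2 e; simp at this
  have hk1K : k1 ∈ K := hk 0
  have hk2K : k2 ∈ K := hk 1
  have hk3K : k3 ∈ K := hk 2
  set g : Eu 4 := (1 / 3 : ℝ) • (k1 + k2 + k3) with hg
  -- the index type
  have : Finite K := hI.finK.to_subtype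
  set n := Nat.card K with hn
  have e : K ≃ Fin n := Finite.equivFin K
  have hn1 : 1 ≤ n := by
    rw [hn, Nat.one_le_iff_ne_zero]
    have : Nonempty K := ⟨⟨k1, hk1K⟩⟩
    exact Nat.card_pos.ne'
  refine ⟨n, hn1, ?_⟩
  set p : ℝ → (Fin m ⊕ Fin n) → Eu 4 := fun c a =>
    Sum.elim (fun i : Fin m => (1 - c) • gam (i : ℕ) + c • g) (fun k => (e.symm k : Eu 4)) a with hp
  have hpl : ∀ c i, p c (Sum.inl i) = (1 - c) • gam (i : ℕ) + c • g := fun c i => rfl
  have hpr : ∀ c k, p c (Sum.inr k) = (e.symm k : Eu 4) := fun c k => rfl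
  have hp0l : ∀ i, p 0 (Sum.inl i) = gam (i : ℕ) := by intro i; rw [hpl]; simp
  have hcont : ∀ (l : Eu 4 →ₗ[ℝ] ℝ) a, ContinuousAt (fun c => l (p c a)) 0 := by
    intro l a
    rcases a with i | k
    · simp only [hpl, map_add, map_smul, smul_eq_mul]
      fun_prop
    · simp only [hpr]
      fun_prop
  have hp0X : ∀ a, p 0 a ∈ X := by
    rintro (i | k)
    · rw [hp0l]; exact hVX i
    · rw [hpr]; exact hKX _ (e.symm k).2
  have hp0inj : Function.Injective (p 0) := by
    rintro (i | k) (j | k') h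
    · rw [hp0l, hp0l] at h
      rw [hVinj i j h]
    · rw [hp0l, hpr] at h
      exact absurd h (hVK i _ (e.symm k').2)
    · rw [hp0l, hpr] at h
      exact absurd h.symm (hVK j _ (e.symm k).2)
    · rw [hpr, hpr] at h
      have := e.symm.injective (Subtype.ext h)
      rw [this]
  -- transfer of exposedness
  have transfer : ∀ {a b : Fin m ⊕ Fin n}, a ≠ b →
      (∃ l : Eu 4 →ₗ[ℝ] ℝ, Exposes X {p 0 a, p 0 b} l) →
      ∀ᶠ c in 𝓝[>] (0 : ℝ), ∃ l' : Eu 4 →ₗ[ℝ] ℝ, l' (p c a) = l' (p c b) ∧
      ∀ y, y ≠ a → y ≠ b → l' (p c y) < l' (p c a) := by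
    intro a b hab hl
    obtain ⟨l, hl⟩ := hl
    apply perturb_edge p hcont (fun h => hab (hp0inj h)) (l := l)
    · exact (hl.eq (by simp) (by simp) (hp0X b)).symm
    · intro y hya hyb
      apply hl.lt (by simp) (hp0X y)
      simp only [mem_insert_iff, mem_singleton_iff, not_or]
      exact ⟨fun h => hya (hp0inj h), fun h => hyb (hp0inj h)⟩
  -- the four kinds of facts
  have f1 : ∀ i j : Fin m, G.Adj i j → ∃ l : Eu 4 →ₗ[ℝ] ℝ,
      Exposes X {gam (i : ℕ), gam (j : ℕ)} l := by
    intro i j hij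
    apply (hI.vv _ (hVmem i) _ (hVmem j) (fun h => hij.ne (hVinj i j h)) ?_).exposed
    rintro ⟨i', j', hi, hj, hij', hn, -⟩
    rw [← hVinj i i' hi, ← hVinj j j' hj] at hn
    exact hn hij
  have f2 : ∀ (i : Fin m), ∀ k ∈ K, ∃ l : Eu 4 →ₗ[ℝ] ℝ, Exposes X {gam (i : ℕ), k} l :=
    fun i k hk => (hI.vk _ (hVmem i) k hk).exposed
  have f3 : ∀ k ∈ K, ∀ k' ∈ K, k ≠ k' → (∃ l : Eu 4 →ₗ[ℝ] ℝ, Exposes X {k, k'} l) ∨
      ∃ (a b : Eu 4) (l : Eu 4 →ₗ[ℝ] ℝ), a ∈ Vset m ∧ b ∈ Vset m ∧ Exposes X {a, b, k, k'} l := by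
    intro k hk k' hk' hkk'
    rcases hI.kk k hk k' hk' hkk' with h | ⟨a, b, h | h⟩
    · exact Or.inl h.exposed
    · obtain ⟨ha, hb, -, -, -, -, -, -, hP⟩ := hI.quad _ _ _ _ h
      obtain ⟨l, hl⟩ := hP.exposed
      exact Or.inr ⟨a, b, l, ha, hb, hl⟩
    · obtain ⟨ha, hb, -, -, -, -, -, -, hP⟩ := hI.quad _ _ _ _ h
      obtain ⟨l, hl⟩ := hP.exposed
      refine Or.inr ⟨a, b, l, ha, hb, ?_⟩
      have : ({a, b, k, k'} : Set (Eu 4)) = {a, b, k', k} := by
        rw [Set.pair_comm k k']
      rw [this]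
      exact hl
  have f4 : ∀ i j : Fin m, i ≠ j → ¬ G.Adj i j → ∃ k ∈ K, ∃ k' ∈ K, ∃ s : ℝ, 0 < s ∧ s < 1 ∧
      (1 - s) • gam (i : ℕ) + s • gam (j : ℕ) = (1 / 2 : ℝ) • (k + k') := by
    intro i j hij hadj
    have hd : DoneRel G m 0 (gam (i : ℕ)) (gam (j : ℕ)) :=
      ⟨i, j, rfl, rfl, hij, hadj, Or.inl (max_lt i.isLt j.isLt)⟩
    obtain ⟨k, k', h | h⟩ := hI.dead _ (hVmem i) _ (hVmem j) (fun h => hij (hVinj i j h)) hd
    · obtain ⟨-, -, hk, hk', -, -, -, ⟨s, hs0, hs1, hs⟩, -⟩ := hI.quad _ _ _ _ h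
      exact ⟨k, hk, k', hk', s, hs0, hs1, hs⟩
    · obtain ⟨-, -, hk, hk', -, -, -, ⟨s, hs0, hs1, hs⟩, -⟩ := hI.quad _ _ _ _ h
      refine ⟨k, hk, k', hk', 1 - s, by linarith, by linarith, ?_⟩
      rw [← hs]
      module
  -- vertices
  have fv : ∀ z ∈ X, ∃ l : Eu 4 →ₗ[ℝ] ℝ, Exposes X {z} l := by
    intro z hz
    rcases hz with ⟨i, rfl⟩ | hz
    · obtain ⟨l1, hl1⟩ := f2 i k1 hk1K
      obtain ⟨l2, hl2⟩ := f2 i k2 hk2K
      refine ⟨l1 + l2, ?_⟩
      have e : ({gam (i : ℕ), k1} : Set (Eu 4)) ∩ {gam (i : ℕ), k2} = {gam (i : ℕ)} := by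
        ext y
        simp only [mem_inter_iff, mem_insert_iff, mem_singleton_iff]
        constructor
        · rintro ⟨h1 | h1, h2 | h2⟩
          · exact h1
          · exact h1
          · exact h2
          · exact absurd (h1.symm.trans h2) hk12
        · intro hy; exact ⟨Or.inl hy, Or.inl hy⟩
      change Exposes X {gam (i : ℕ)} _
      rw [← e]
      exact hl1.inter hl2
    · set i0 : Fin m := ⟨0, by omega⟩ with hi0
      set i1 : Fin m := ⟨1, by omega⟩ with hi1
      obtain ⟨l1, hl1⟩ := f2 i0 z hz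
      obtain ⟨l2, hl2⟩ := f2 i1 z hz
      refine ⟨l1 + l2, ?_⟩
      have e : ({gam ((i0 : ℕ) : ℝ), z} : Set (Eu 4)) ∩ {gam ((i1 : ℕ) : ℝ), z} = {z} := by
        ext y
        simp only [mem_inter_iff, mem_insert_iff, mem_singleton_iff]
        constructor
        · rintro ⟨h1 | h1, h2 | h2⟩
          · have := hVinj i0 i1 (h1.symm.trans h2)
            simp [hi0, hi1] at this
          · exact h2
          · exact h1
          · exact h1
        · intro hy; exact ⟨Or.inr hy, Or.inr hy⟩
      rw [← e]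
      exact hl1.inter hl2
  have evv : ∀ᶠ c in 𝓝[>] (0 : ℝ), ∀ a, ∃ l : Eu 4 →ₗ[ℝ] ℝ, ∀ y, y ≠ a →
      l (p c y) < l (p c a) := by
    rw [eventually_all]
    intro a
    obtain ⟨l, hl⟩ := fv _ (hp0X a)
    have : ∀ᶠ c in 𝓝[>] (0 : ℝ), ∀ y, y ≠ a → l (p c y) < l (p c a) := by
      rw [eventually_all]
      intro y
      by_cases hy : y = a
      · exact Filter.Eventually.of_forall fun c h => absurd hy h
      · have : ∀ᶠ c in 𝓝[>] (0 : ℝ), l (p c y) < l (p c a) := by
          apply ev_lt_of_continuousAt (hcont l y) (hcont l a)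
          apply hl.lt (mem_singleton _) (hp0X y)
          simp only [mem_singleton_iff]
          exact fun h => hy (hp0inj h)
        filter_upwards [this] with c hc _ using hc
    filter_upwards [this] with c hc
    exact ⟨l, hc⟩
  have eve : ∀ᶠ c in 𝓝[>] (0 : ℝ), ∀ a b, (joinComplete G n).Adj a b →
      ∃ l : Eu 4 →ₗ[ℝ] ℝ, l (p c a) = l (p c b) ∧ ∀ y, y ≠ a → y ≠ b →
      l (p c y) < l (p c a) := by
    rw [eventually_all]
    intro a
    rw [eventually_all]
    intro b
    by_cases hab : (joinComplete G n).Adj a b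
    · have hne : a ≠ b := hab.ne
      have : ∀ᶠ c in 𝓝[>] (0 : ℝ), ∃ l : Eu 4 →ₗ[ℝ] ℝ, l (p c a) = l (p c b) ∧
          ∀ y, y ≠ a → y ≠ b → l (p c y) < l (p c a) := by
        rcases a with i | k <;> rcases b with j | k'
        · apply transfer hne
          rw [hp0l, hp0l]
          exact f1 i j hab
        · apply transfer hne
          rw [hp0l, hpr]
          exact f2 i _ (e.symm k').2
        · apply transfer hne
          rw [hp0l, hpr, Set.pair_comm]
          exact f2 j _ (e.symm k).2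
        · have hkk' : (e.symm k : Eu 4) ≠ e.symm k' := by
            intro h
            exact hne (congrArg Sum.inr (e.symm.injective (Subtype.ext h)))
          rcases f3 _ (e.symm k).2 _ (e.symm k').2 hkk' with h | ⟨a, b, l, ha, hb, hl⟩
          · apply transfer hne
            rw [hpr, hpr]
            exact h
          · have hc1 : ∀ᶠ c in 𝓝[>] (0 : ℝ), c < 1 := by
              apply ev_lt_of_continuousAt (f := fun c => c) (g := fun _ => 1)
                (by fun_prop) (by fun_prop)
              norm_num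
            filter_upwards [hc1, ev_pos] with c hc1 hc0
            set M := l (e.symm k : Eu 4) with hM
            have hkF : (e.symm k : Eu 4) ∈ ({a, b, (e.symm k : Eu 4), (e.symm k' : Eu 4)} :
                Set (Eu 4)) := by simp
            have hk'F : (e.symm k' : Eu 4) ∈ ({a, b, (e.symm k : Eu 4), (e.symm k' : Eu 4)} :
                Set (Eu 4)) := by simp
            have hle : ∀ y ∈ X, l y ≤ M := fun y hy => hl.le hkF hy
            have hKlt : ∀ y ∈ K, y ≠ (e.symm k : Eu 4) → y ≠ (e.symm k' : Eu 4) → l y < M := by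
              intro y hy h1 h2
              apply hl.lt hkF (hKX y hy)
              simp only [mem_insert_iff, mem_singleton_iff, not_or]
              refine ⟨?_, ?_, h1, h2⟩
              · rintro rfl; exact hI.disj _ ha hy
              · rintro rfl; exact hI.disj _ hb hy
            have hgM : l g < M := by
              have e1 : l g = (1 / 3) * (l k1 + l k2 + l k3) := by
                rw [hg, map_smul, map_add, map_add, smul_eq_mul]
              rw [e1]
              have l1 := hle k1 (hKX _ hk1K)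
              have l2 := hle k2 (hKX _ hk2K)
              have l3 := hle k3 (hKX _ hk3K)
              have : l k1 < M ∨ l k2 < M ∨ l k3 < M := by
                by_contra hcon
                push Not at hcon
                obtain ⟨c1, c2, c3⟩ := hcon
                have d1 : k1 = (e.symm k : Eu 4) ∨ k1 = (e.symm k' : Eu 4) := by
                  by_contra hh
                  push Not at hh
                  exact absurd (hKlt k1 hk1K hh.1 hh.2) (not_lt.mpr c1)
                have d2 : k2 = (e.symm k : Eu 4) ∨ k2 = (e.symm k' : Eu 4) := by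
                  by_contra hh
                  push Not at hh
                  exact absurd (hKlt k2 hk2K hh.1 hh.2) (not_lt.mpr c2)
                have d3 : k3 = (e.symm k : Eu 4) ∨ k3 = (e.symm k' : Eu 4) := by
                  by_contra hh
                  push Not at hh
                  exact absurd (hKlt k3 hk3K hh.1 hh.2) (not_lt.mpr c3)
                rcases d1 with d1 | d1 <;> rcases d2 with d2 | d2
                · exact hk12 (d1.trans d2.symm)
                · rcases d3 with d3 | d3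
                  · exact hk13 (d1.trans d3.symm)
                  · exact hk23 (d2.trans d3.symm)
                · rcases d3 with d3 | d3
                  · exact hk23 (d2.trans d3.symm)
                  · exact hk13 (d1.trans d3.symm)
                · exact hk12 (d1.trans d2.symm)
              rcases this with h | h | h <;> linarith
            refine ⟨l, ?_, ?_⟩
            · rw [hpr, hpr]
              exact (hl.eq hkF hk'F (hKX _ (e.symm k').2)).symm
            · rintro (i | k'') h1 h2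
              · rw [hpl, hpr, map_add, map_smul, map_smul, smul_eq_mul, smul_eq_mul]
                have h3 := hle _ (hVX i)
                have h4 : (1 - c) * l (gam (i : ℕ)) ≤ (1 - c) * M :=
                  mul_le_mul_of_nonneg_left h3 (by linarith)
                have h5 : c * l g < c * M := mul_lt_mul_of_pos_left hgM hc0
                linarith
              · rw [hpr, hpr]
                apply hKlt _ (e.symm k'').2
                · intro h; exact h1 (congrArg Sum.inr (e.symm.injective (Subtype.ext h)))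
                · intro h; exact h2 (congrArg Sum.inr (e.symm.injective (Subtype.ext h)))
      filter_upwards [this] with c hc _ using hc
    · exact Filter.Eventually.of_forall fun c h => absurd h hab
  have evc : ∀ᶠ c in 𝓝[>] (0 : ℝ), c < 1 := by
    apply ev_lt_of_continuousAt (f := fun c => c) (g := fun _ => 1) (by fun_prop) (by fun_prop)
    norm_num
  obtain ⟨c, ⟨⟨hcv, hce⟩, hc1⟩, hc0⟩ := (((evv.and eve).and evc).and ev_pos).exists
  apply isPolytopal_of (joinComplete G n) (p c) hcv hce
  · intro a b hab hadj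
    rcases a with i | k <;> rcases b with j | k'
    · have hij : i ≠ j := fun h => hab (by rw [h])
      obtain ⟨k, hk, k', hk', s, hs0, hs1, hs⟩ := f4 i j hij hadj
      refine ⟨s, hs0, hs1, ?_⟩
      have e1 : (1 - s) • p c (Sum.inl i) + s • p c (Sum.inl j) =
          ((1 - c) * (1 / 2)) • k + (((1 - c) * (1 / 2)) • k' + ((c * (1 / 3)) • k1 +
            ((c * (1 / 3)) • k2 + (c * (1 / 3)) • k3))) := by
        have e2 : (1 - s) • p c (Sum.inl i) + s • p c (Sum.inl j) =
            (1 - c) • ((1 - s) • gam (i : ℕ) + s • gam (j : ℕ)) + c • g := by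
          rw [hpl, hpl]
          module
        rw [e2, hs, hg]
        module
      rw [e1]
      have hsub : ∀ y ∈ K, y ∈ convexHull ℝ (p c '' {y | y ≠ Sum.inl i ∧ y ≠ Sum.inl j}) := by
        intro y hy
        apply subset_convexHull
        refine ⟨Sum.inr (e ⟨y, hy⟩), ⟨by simp, by simp⟩, ?_⟩
        rw [hpr]
        simp
      have hconv := convex_convexHull ℝ (p c '' {y | y ≠ Sum.inl i ∧ y ≠ Sum.inl j})
      have key : ∀ w : Fin 5 → ℝ, (∀ i, 0 ≤ w i) → ∑ i, w i = 1 → ∀ z : Fin 5 → Eu 4,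
          (∀ i, z i ∈ K) → ∑ i, w i • z i ∈
            convexHull ℝ (p c '' {y | y ≠ Sum.inl i ∧ y ≠ Sum.inl j}) := by
        intro w hw0 hw1 z hz
        exact hconv.sum_mem (fun i _ => hw0 i) hw1 (fun i _ => hsub _ (hz i))
      have := key ![(1 - c) * (1 / 2), (1 - c) * (1 / 2), c * (1 / 3), c * (1 / 3), c * (1 / 3)]
        (by
          intro i
          fin_cases i <;> simp <;> linarith)
        (by
          simp [Fin.sum_univ_succ]
          ring)
        ![k, k', k1, k2, k3]
        (by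
          intro i
          fin_cases i
          · exact hk
          · exact hk'
          · exact hk1K
          · exact hk2K
          · exact hk3K)
      simpa [Fin.sum_univ_succ] using this
    · exact absurd trivial hadj
    · exact absurd trivial hadj
    · exact absurd (fun h => hab (congrArg Sum.inr h)) hadj
  · have h1 : (interior (convexHull ℝ (K0set m))).Nonempty :=
      interior_convexHull_nonempty_iff_affineSpan_eq_top.mpr (affineSpan_K0set m)
    apply h1.mono
    apply interior_mono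
    apply convexHull_mono
    intro y hy
    have hyK := hK0 hy
    exact ⟨Sum.inr (e ⟨y, hyK⟩), by rw [hpr]; simp⟩

/-- For every finite graph with at least two vertices, `4 ∈ joinDims G`. -/
theorem four_mem_joinDims {V : Type} [Fintype V] (G : SimpleGraph V)
    (hV : 2 ≤ Fintype.card V) : 4 ∈ joinDims G := by
  classical
  set m := Fintype.card V with hm
  have e : V ≃ Fin m := Fintype.equivFin V
  set G' : SimpleGraph (Fin m) := G.map e.toEmbedding with hG'
  have iso : G ≃g G' := SimpleGraph.Iso.map e G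
  obtain ⟨n, hn, hP⟩ := exists_polytopal_four hV G'
  exact ⟨n, hn, hP.congr (joinIso iso.symm n)⟩

end Pool.Agent.H.MP_2da123_co
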