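import Pool.Agent.H.MP_2da123_co.Three
import Pool.Agent.H.MP_2da123_co.Four

/-!
A Hamiltonian outerplanar graph plus one universal vertex is `3`-polytopal.
-/

namespace Pool.Agent.H.MP_2da123_co

theorem ham3 {V : Type} (G : SimpleGraph V) (h : IsHamOuterplanar G) :
    IsPolytopal 3 (joinComplete G 1) := by
  obtain ⟨m, e, hm, hcyc, hcross⟩ := h
  set H : SimpleGraph (Fin m) := G.comap e with hH
  have hadj : ∀ i j, H.Adj i j ↔ G.Adj (e i) (e j) := fun i j => Iff.rfl
  have iso : H ≃g G := ⟨e, Iff.rfl⟩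
  refine IsPolytopal.congr (joinIso iso 1) (polytopal_three H hm ?_ ?_)
  · intro i j k l h1 h2 h3 h4
    exact hcross i j k l h1 h2 h3 h4
  · intro i j h1
    exact hcyc i j h1

end Pool.Agent.H.MP_2da123_co
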