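import Pool.Agent.H.MP_2da123_co.Core

/-!
The insertion step: one non-edge `{u, x}` is destroyed by two new points.
-/

namespace Pool.Agent.H.MP_2da123_co

open Filter Topology Set Module

section Step

variable {E : Type*} [AddCommGroup E] [Module ℝ E]

/-- The invariants of the construction. `V` are the vertices of the graph, `K` the additional
points, `A` the active points, `om` the directions, `D a b k k'` means that the pair `a, b` has been
destroyed with the help of `k, k'`, and `Done` is the relation of destroyed pairs. -/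
structure Inv (V K : Set E) (A : E → Prop) (om : E → E) (D : E → E → E → E → Prop)
    (Done : E → E → Prop) : Prop where
  finV : V.Finite
  finK : K.Finite
  disj : ∀ a ∈ V, a ∉ K
  act : ∀ a, A a → a ∈ V
  twoK : ∃ k ∈ K, ∃ k' ∈ K, k ≠ k'
  done_symm : ∀ a b, Done a b → Done b a
  vv : ∀ a ∈ V, ∀ b ∈ V, a ≠ b → ¬ Done a b → PairOK (V ∪ K) {a, b} A om a b
  vk : ∀ a ∈ V, ∀ k ∈ K, PairOK (V ∪ K) {a, k} A om a k
  kk : ∀ k ∈ K, ∀ k' ∈ K, k ≠ k' →
    PairOK (V ∪ K) {k, k'} A om k k' ∨ ∃ a b, D a b k k' ∨ D a b k' k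
  dead : ∀ a ∈ V, ∀ b ∈ V, a ≠ b → Done a b → ∃ k k', D a b k k' ∨ D b a k k'
  quad : ∀ a b k k', D a b k k' → a ∈ V ∧ b ∈ V ∧ k ∈ K ∧ k' ∈ K ∧ a ≠ b ∧ k ≠ k' ∧ Done a b ∧
    (∃ s : ℝ, 0 < s ∧ s < 1 ∧ (1 - s) • a + s • b = (1 / 2 : ℝ) • (k + k')) ∧
    PairOK (V ∪ K) {a, b, k, k'} A om a b

theorem exists_theta [FiniteDimensional ℝ E] (hdim : 4 ≤ finrank ℝ E) {X : Set E} (hX : X.Finite)
    {u x w : E} (hxX : x ∈ X) {l0 : E →ₗ[ℝ] ℝ} (h0 : Exposes X {u, x} l0)
    (h0w : l0 w = 0) :
    ∃ θ : E, ∀ s : Bool, ∃ f : E →ₗ[ℝ] ℝ, Exposes X {u, x} f ∧ f w = 0 ∧ f (x - u) = 0 ∧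
      0 < sg s * f θ := by
  classical
  have h0d : l0 (x - u) = 0 := by
    rw [map_sub]
    have : l0 x = l0 u := h0.eq (by simp) (by simp) hxX
    linarith
  set W : Submodule ℝ E := Submodule.span ℝ {x - u, w} with hW
  have hWr : finrank ℝ W ≤ 2 := by
    have h1 : finrank ℝ (Submodule.span ℝ (({x - u, w} : Finset E) : Set E)) ≤ _ :=
      finrank_span_finset_le_card _
    have h2 : ({x - u, w} : Finset E).card ≤ 2 := Finset.card_le_two
    have h3 : (({x - u, w} : Finset E) : Set E) = {x - u, w} := by simp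
    rw [h3] at h1
    exact h1.trans h2
  have hker : 3 ≤ finrank ℝ (LinearMap.ker l0) := by
    have h1 := LinearMap.finrank_range_add_finrank_ker l0
    have h2 : finrank ℝ (LinearMap.range l0) ≤ 1 := by
      have := Submodule.finrank_le (LinearMap.range l0)
      simpa using this
    omega
  obtain ⟨θ, hθk, hθW⟩ : ∃ θ ∈ LinearMap.ker l0, θ ∉ W := by
    by_contra hcon
    push Not at hcon
    have hle : LinearMap.ker l0 ≤ W := fun y hy => hcon y hy
    have := Submodule.finrank_mono hle
    omega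
  obtain ⟨f, hf1, hf2⟩ := Submodule.exists_le_ker_of_notMem hθW
  have hfd : f (x - u) = 0 := hf2 (Submodule.subset_span (by simp))
  have hfw : f w = 0 := hf2 (Submodule.subset_span (by simp))
  set m : E →ₗ[ℝ] ℝ := (f θ)⁻¹ • f with hm
  have hmθ : m θ = 1 := by
    simp only [hm, LinearMap.smul_apply, smul_eq_mul]
    exact inv_mul_cancel₀ hf1
  have hmd : m (x - u) = 0 := by simp [hm, hfd]
  have hmw : m w = 0 := by simp [hm, hfw]
  have hmx : m x = m u := by
    rw [map_sub] at hmd; linarith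
  have hθ0 : l0 θ = 0 := hθk
  have key : ∀ s : Bool, ∀ᶠ η in 𝓝[>] (0 : ℝ), Exposes X {u, x} (l0 + (η * sg s) • m) := by
    intro s
    have e1 : ∀ᶠ η in 𝓝[>] (0 : ℝ), ∀ y ∈ X, y ∉ ({u, x} : Set E) →
        l0 y + (η * sg s) * m y < l0 u + (η * sg s) * m u := by
      rw [eventually_all_finite hX]
      intro y hy
      by_cases hyF : y ∈ ({u, x} : Set E)
      · exact Filter.Eventually.of_forall fun δ h => absurd hyF h
      · have : ∀ᶠ η in 𝓝[>] (0 : ℝ), l0 y + (η * sg s) * m y < l0 u + (η * sg s) * m u := by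
          apply ev_lt_of_continuousAt (by fun_prop) (by fun_prop)
          simpa using h0.lt (by simp) hy hyF
        filter_upwards [this] with δ h _ using h
    filter_upwards [e1] with η hη
    have hval : ∀ a ∈ ({u, x} : Set E), (l0 + (η * sg s) • m) a = (l0 + (η * sg s) • m) u := by
      intro a ha
      rcases ha with ha | ha
      · rw [ha]
      · rw [mem_singleton_iff] at ha
        subst ha
        simp only [LinearMap.add_apply, LinearMap.smul_apply, smul_eq_mul, hmx]
        rw [h0.eq (a := u) (b := a) (by simp) (by simp) hxX]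
    intro a ha y hy
    refine ⟨fun hyF => by rw [hval a ha, hval y hyF], fun hyF => ?_⟩
    rw [hval a ha]
    simpa using hη y hy hyF
  obtain ⟨η, ⟨h1, h2⟩, h3⟩ := (((key true).and (key false)).and ev_pos).exists
  refine ⟨θ, fun s => ⟨l0 + (η * sg s) • m, ?_, ?_, ?_, ?_⟩⟩
  · cases s
    · exact h2
    · exact h1
  · simp [h0w, hmw]
  · rw [LinearMap.add_apply, LinearMap.smul_apply, hmd, h0d]; simp
  · rw [LinearMap.add_apply, LinearMap.smul_apply, hmθ, hθ0]
    have := sg_sq s
    simp only [smul_eq_mul, mul_one, zero_add]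
    have e : sg s * (η * sg s) = η * (sg s * sg s) := by ring
    rw [e, this, mul_one]
    exact h3

theorem Exposes.half {X F : Set E} (hFX : F ⊆ X) {l : E →ₗ[ℝ] ℝ} (hl : Exposes X F l) {u : E}
    (huF : u ∈ F) {c c' : E} (hc : l c = 0) (hc' : l c' < 0) {δ : ℝ} (hδ : 0 < δ) :
    Exposes (X ∪ {u + δ • c, u + δ • c'}) (F ∪ {u + δ • c}) l := by
  have hval : ∀ a ∈ F ∪ {u + δ • c}, l a = l u := by
    intro a ha
    rcases ha with ha | ha
    · exact hl.eq huF ha (hFX ha)
    · rw [mem_singleton_iff] at ha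
      rw [ha, map_add, map_smul, hc]; simp
  intro a ha y hy
  refine ⟨fun hyF => by rw [hval a ha, hval y hyF], fun hyF => ?_⟩
  rw [hval a ha]
  rcases hy with hy | hy | hy
  · exact hl.lt huF hy (fun h => hyF (Or.inl h))
  · exact absurd (Or.inr hy) hyF
  · rw [mem_singleton_iff] at hy
    rw [hy, map_add, map_smul, smul_eq_mul]
    nlinarith

theorem sg_not (b : Bool) : sg (!b) = - sg b := by cases b <;> simp [sg]

omit [AddCommGroup E] [Module ℝ E] in
theorem pair_swap (p : Bool → E) (s : Bool) :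
    ({p s, p (!s)} : Set E) = {p false, p true} := by
  cases s
  · rfl
  · exact Set.pair_comm _ _

theorem Inv.step [FiniteDimensional ℝ E] (hdim : 4 ≤ finrank ℝ E) {V K : Set E} {A : E → Prop}
    {om : E → E} {D : E → E → E → E → Prop} {Done : E → E → Prop} (h : Inv V K A om D Done)
    {u x : E} (hu : u ∈ V) (hA : A u) (hx : x ∈ V) (hxA : ¬ A x) (hux : u ≠ x)
    (hnd : ¬ Done u x) :
    ∃ (K' : Set E) (om' : E → E) (D' : E → E → E → E → Prop), K ⊆ K' ∧
      Inv V K' A om' D' (fun a b => Done a b ∨ (a = u ∧ b = x) ∨ (a = x ∧ b = u)) := by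
  classical
  set X : Set E := V ∪ K with hXdef
  have hX : X.Finite := h.finV.union h.finK
  have huX : u ∈ X := Or.inl hu
  have hxX : x ∈ X := Or.inl hx
  obtain ⟨k1, hk1, k2, hk2, hk12⟩ := h.twoK
  have huK : ∀ k ∈ K, u ≠ k := fun k hk e => h.disj u hu (e ▸ hk)
  have hxK : ∀ k ∈ K, x ≠ k := fun k hk e => h.disj x hx (e ▸ hk)
  -- links
  have hlink : ∀ z ∈ X, z ≠ u → ∃ F ⊆ X, u ∈ F ∧ z ∈ F ∧ PairOK X F A om u z := by
    intro z hz hzu
    rcases hz with hz | hz
    · by_cases hd : Done u z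
      · obtain ⟨k, k', hD⟩ := h.dead u hu z hz hzu.symm hd
        rcases hD with hD | hD
        · obtain ⟨-, -, hk, hk', -, -, -, -, hP⟩ := h.quad _ _ _ _ hD
          refine ⟨{u, z, k, k'}, ?_, by simp, by simp, hP⟩
          intro y hy
          simp only [mem_insert_iff, mem_singleton_iff] at hy
          rcases hy with rfl | rfl | rfl | rfl
          · exact Or.inl hu
          · exact Or.inl hz
          · exact Or.inr hk
          · exact Or.inr hk'
        · obtain ⟨-, -, hk, hk', -, -, -, -, hP⟩ := h.quad _ _ _ _ hD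
          refine ⟨{z, u, k, k'}, ?_, by simp, by simp, hP.symm⟩
          intro y hy
          simp only [mem_insert_iff, mem_singleton_iff] at hy
          rcases hy with rfl | rfl | rfl | rfl
          · exact Or.inl hz
          · exact Or.inl hu
          · exact Or.inr hk
          · exact Or.inr hk'
      · refine ⟨{u, z}, ?_, by simp, by simp, h.vv u hu z hz hzu.symm hd⟩
        intro y hy
        simp only [mem_insert_iff, mem_singleton_iff] at hy
        rcases hy with rfl | rfl
        · exact Or.inl hu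
        · exact Or.inl hz
    · refine ⟨{u, z}, ?_, by simp, by simp, h.vk u hu z hz⟩
      intro y hy
      simp only [mem_insert_iff, mem_singleton_iff] at hy
      rcases hy with rfl | rfl
      · exact Or.inl hu
      · exact Or.inr hz
  -- vertices
  have hvert : ∀ z ∈ X, ∃ g : E →ₗ[ℝ] ℝ, Exposes X {z} g := by
    intro z hz
    rcases hz with hz | hz
    · obtain ⟨l1, hl1⟩ := (h.vk z hz k1 hk1).exposed
      obtain ⟨l2, hl2⟩ := (h.vk z hz k2 hk2).exposed
      refine ⟨l1 + l2, ?_⟩
      have e : ({z, k1} : Set E) ∩ {z, k2} = {z} := by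
        ext y
        simp only [mem_inter_iff, mem_insert_iff, mem_singleton_iff]
        constructor
        · rintro ⟨h1 | h1, h2 | h2⟩
          · exact h1
          · exact h1
          · exact h2
          · exact absurd (h1.symm.trans h2) hk12
        · intro hy; exact ⟨Or.inl hy, Or.inl hy⟩
      rw [← e]
      exact hl1.inter hl2
    · obtain ⟨l1, hl1⟩ := (h.vk u hu z hz).exposed
      obtain ⟨l2, hl2⟩ := (h.vk x hx z hz).exposed
      refine ⟨l1 + l2, ?_⟩
      have e : ({u, z} : Set E) ∩ {x, z} = {z} := by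
        ext y
        simp only [mem_inter_iff, mem_insert_iff, mem_singleton_iff]
        constructor
        · rintro ⟨h1 | h1, h2 | h2⟩
          · exact absurd (h1.symm.trans h2) hux
          · exact h2
          · exact h1
          · exact h1
        · intro hy; exact ⟨Or.inr hy, Or.inr hy⟩
      rw [← e]
      exact hl1.inter hl2
  -- `h0` exposes `u` and vanishes on `om u`
  obtain ⟨h0, hh0, hh0w⟩ : ∃ g : E →ₗ[ℝ] ℝ, Exposes X {u} g ∧ g (om u) = 0 := by
    obtain ⟨l1, hl1, hw1, -⟩ := (h.vk u hu k1 hk1).zero hA true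
    obtain ⟨l2, hl2, hw2, -⟩ := (h.vk u hu k2 hk2).zero hA true
    refine ⟨l1 + l2, ?_, by simp [hw1, hw2]⟩
    have e : ({u, k1} : Set E) ∩ {u, k2} = {u} := by
      ext y
      simp only [mem_inter_iff, mem_insert_iff, mem_singleton_iff]
      constructor
      · rintro ⟨h1 | h1, h2 | h2⟩
        · exact h1
        · exact h1
        · exact h2
        · exact absurd (h1.symm.trans h2) hk12
      · intro hy; exact ⟨Or.inl hy, Or.inl hy⟩
    rw [← e]
    exact hl1.inter hl2
  have hh0x : h0 (x - u) < 0 := by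
    rw [map_sub]
    have := hh0.lt (mem_singleton u) hxX (by simpa using hux.symm)
    linarith
  -- choice of `κ`
  have evκ : ∀ᶠ κ in 𝓝[>] (0 : ℝ), ∀ z ∈ X, z ≠ u → ∀ s t : Bool, ∃ F ⊆ X, u ∈ F ∧ z ∈ F ∧
      ∃ l : E →ₗ[ℝ] ℝ, Exposes X F l ∧ κ * |l (x - u)| < sg s * l (om u) ∧
        (A z → 0 < sg t * l (om z)) := by
    rw [eventually_all_finite hX]
    intro z hz
    by_cases hzu : z = u
    · exact Filter.Eventually.of_forall fun κ hne => absurd hzu hne
    · obtain ⟨F, hFX, huF, hzF, hP⟩ := hlink z hz hzu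
      have : ∀ᶠ κ in 𝓝[>] (0 : ℝ), ∀ s t : Bool, ∃ l : E →ₗ[ℝ] ℝ, Exposes X F l ∧
          κ * |l (x - u)| < sg s * l (om u) ∧ (A z → 0 < sg t * l (om z)) := by
        rw [eventually_all]
        intro s
        rw [eventually_all]
        intro t
        exact hP.ev_kappa hA (x - u) s t
      filter_upwards [this] with κ hκ _ s t
      obtain ⟨l, hl⟩ := hκ s t
      exact ⟨F, hFX, huF, hzF, l, hl⟩
  obtain ⟨κ, hκ, hκ0⟩ := (evκ.and ev_pos).exists
  -- choice of `θ`
  have hP0 : PairOK X {u, x} A om u x := h.vv u hu x hx hux hnd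
  obtain ⟨l0, hl0, hl0w, -⟩ := hP0.zero hA true
  obtain ⟨θ, hθ⟩ := exists_theta hdim hX hxX hl0 hl0w
  -- choice of `ζ`
  have evζ : ∀ᶠ ζ in 𝓝[>] (0 : ℝ), ∀ F ∈ {F : Set E | F ⊆ X}, ∀ z ∈ X, u ∈ F → x ∉ F →
      PairOK X F A om u z → ∀ s t : Bool, ∃ l : E →ₗ[ℝ] ℝ, Exposes X F l ∧
      |l (om u)| < - (κ * l (x - u)) ∧ 0 < sg s * l (om u + ζ • θ) ∧
      (A z → 0 < sg t * l (om z)) := by
    rw [eventually_all_finite hX.finite_subsets]
    intro F hF
    rw [eventually_all_finite hX]
    intro z hz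
    by_cases hc : u ∈ F ∧ x ∉ F ∧ PairOK X F A om u z
    · obtain ⟨huF, hxF, hP⟩ := hc
      have : ∀ᶠ ζ in 𝓝[>] (0 : ℝ), ∀ s t : Bool, ∃ l : E →ₗ[ℝ] ℝ, Exposes X F l ∧
          |l (om u)| < - (κ * l (x - u)) ∧ 0 < sg s * l (om u + ζ • θ) ∧
          (A z → 0 < sg t * l (om z)) := by
        rw [eventually_all]
        intro s
        rw [eventually_all]
        intro t
        exact hP.ev_zeta hA huF hxX hxF hκ0 θ s t
      filter_upwards [this] with ζ hζ _ _ _ using hζ
    · exact Filter.Eventually.of_forall fun ζ h1 h2 h3 => absurd ⟨h1, h2, h3⟩ hc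
  obtain ⟨ζ, hζ, hζ0⟩ := (evζ.and ev_pos).exists
  set w' : E := om u + ζ • θ with hw'
  set om' : E → E := Function.update om u w' with hom'
  have hom'u : om' u = w' := by simp [hom']
  have hom'z : ∀ z, z ≠ u → om' z = om z := fun z hz => by simp [hom', hz]
  -- the new directions
  set c : Bool → E := fun s => κ • (x - u) + (sg s) • om u with hcdef
  have hc : ∀ (l : E →ₗ[ℝ] ℝ) s, l (c s) = κ * l (x - u) + sg s * l (om u) := by
    intro l s
    simp only [hcdef, map_add, map_smul, smul_eq_mul]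
  -- choice of `δ`
  have evδ1 : ∀ᶠ δ in 𝓝[>] (0 : ℝ), ∀ F ∈ {F : Set E | F ⊆ X}, ∀ a ∈ X, ∀ b ∈ X, u ∉ F →
      PairOK X F A om a b → ∀ s t : Bool, ∃ l : E →ₗ[ℝ] ℝ,
        Exposes (X ∪ {u + δ • c false, u + δ • c true}) F l ∧
        (A a → 0 < sg s * l (om a)) ∧ (A b → 0 < sg t * l (om b)) := by
    rw [eventually_all_finite hX.finite_subsets]
    intro F hF
    rw [eventually_all_finite hX]
    intro a ha
    rw [eventually_all_finite hX]
    intro b hb
    by_cases hc : u ∉ F ∧ PairOK X F A om a b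
    · obtain ⟨huF, hP⟩ := hc
      have : ∀ᶠ δ in 𝓝[>] (0 : ℝ), ∀ s t : Bool, ∃ l : E →ₗ[ℝ] ℝ,
          Exposes (X ∪ {u + δ • c false, u + δ • c true}) F l ∧
          (A a → 0 < sg s * l (om a)) ∧ (A b → 0 < sg t * l (om b)) := by
        rw [eventually_all]
        intro s
        rw [eventually_all]
        intro t
        obtain ⟨l, h1, h2, h3⟩ := hP s t
        filter_upwards [ev_away hF h1 huX huF (c false) (c true)] with δ hδ
        exact ⟨l, hδ, h2, h3⟩
      filter_upwards [this] with δ hδ _ _ using hδ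
    · exact Filter.Eventually.of_forall fun ζ h1 h2 => absurd ⟨h1, h2⟩ hc
  have evδ2 : ∀ᶠ δ in 𝓝[>] (0 : ℝ), ∀ z ∈ X, z ≠ u → ∀ s t : Bool, ∃ l : E →ₗ[ℝ] ℝ,
      Exposes (X ∪ {u + δ • c s, u + δ • c (!s)}) {u + δ • c s, z} l ∧
      (A z → 0 < sg t * l (om z)) := by
    rw [eventually_all_finite hX]
    intro z hz
    by_cases hzu : z = u
    · exact Filter.Eventually.of_forall fun κ hne => absurd hzu hne
    · have : ∀ᶠ δ in 𝓝[>] (0 : ℝ), ∀ s t : Bool, ∃ l : E →ₗ[ℝ] ℝ,
          Exposes (X ∪ {u + δ • c s, u + δ • c (!s)}) {u + δ • c s, z} l ∧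
          (A z → 0 < sg t * l (om z)) := by
        rw [eventually_all]
        intro s
        rw [eventually_all]
        intro t
        obtain ⟨F, hFX, huF, hzF, l, hl, hlκ, hlz⟩ := hκ z hz hzu s t
        obtain ⟨g, hg⟩ := hvert z hz
        have hcs : 0 < l (c s) := by
          rw [hc]
          have := neg_abs_le (l (x - u))
          nlinarith [mul_le_mul_of_nonneg_left this hκ0.le]
        have hcs' : l (c (!s)) < 0 := by
          rw [hc, sg_not]
          have := le_abs_self (l (x - u))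
          nlinarith [mul_le_mul_of_nonneg_left this hκ0.le]
        by_cases hz : A z
        · filter_upwards [ev_pair hX hl huX huF hzF hzu hg hcs hcs' (hlz hz)] with δ hδ
          obtain ⟨l', h1, h2⟩ := hδ
          exact ⟨l', h1, fun _ => h2⟩
        · have hv : 0 < (1 : ℝ) * l (c s) := by rw [one_mul]; exact hcs
          filter_upwards [ev_pair hX hl huX huF hzF hzu hg hcs hcs' hv] with δ hδ
          obtain ⟨l', h1, h2⟩ := hδ
          exact ⟨l', h1, fun h => absurd h hz⟩
      filter_upwards [this] with δ hδ _ using hδ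
  -- the new points are new
  have hne : ∀ s, ∃ l : E →ₗ[ℝ] ℝ, l (c s) ≠ 0 := by
    intro s
    obtain ⟨F, hFX, huF, hzF, l, hl, hlκ, hlz⟩ := hκ x hxX hux.symm s true
    refine ⟨l, ?_⟩
    rw [hc]
    have := neg_abs_le (l (x - u))
    have h2 : 0 < κ * l (x - u) + sg s * l (om u) := by
      nlinarith [mul_le_mul_of_nonneg_left this hκ0.le]
    exact h2.ne'
  have evδ3 : ∀ᶠ δ in 𝓝[>] (0 : ℝ), ∀ y ∈ X, ∀ s : Bool, u + δ • c s ≠ y := by
    rw [eventually_all_finite hX]
    intro y hy
    rw [eventually_all]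
    intro s
    by_cases hyu : y = u
    · obtain ⟨l, hl⟩ := hne s
      filter_upwards [ev_pos] with δ hδ heq
      rw [hyu] at heq
      have : δ • c s = 0 := by simpa using heq
      have h2 : l (δ • c s) = 0 := by rw [this]; simp
      rw [map_smul, smul_eq_mul] at h2
      rcases mul_eq_zero.mp h2 with h3 | h3
      · exact hδ.ne' h3
      · exact hl h3
    · obtain ⟨g, hg⟩ := hvert u huX
      have hgy : g y < g u := hg.lt (mem_singleton u) hy (by simpa using hyu)
      have : ∀ᶠ δ in 𝓝[>] (0 : ℝ), g y < g u + δ * g (c s) := by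
        apply ev_lt_of_continuousAt (by fun_prop) (by fun_prop)
        simpa using hgy
      filter_upwards [this] with δ hδ heq
      rw [← heq, map_add, map_smul, smul_eq_mul] at hδ
      exact lt_irrefl _ hδ
  have evδ4 : ∀ᶠ δ in 𝓝[>] (0 : ℝ), δ * κ < 1 := by
    apply ev_lt_of_continuousAt (by fun_prop) (by fun_prop); simp
  obtain ⟨δ, ⟨⟨⟨hδ1, hδ2⟩, hδ3⟩, hδ4⟩, hδ0⟩ :=
    ((((evδ1.and evδ2).and evδ3).and evδ4).and ev_pos).exists
  set p : Bool → E := fun s => u + δ • c s with hp
  have hpX : ∀ s, p s ∉ X := fun s hs => hδ3 (p s) hs s rfl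
  set X' : Set E := X ∪ {p false, p true} with hX'
  have hX's : ∀ s, X ∪ {p s, p (!s)} = X' := by
    intro s
    rw [pair_swap p s]
  have hVK : V ∪ (K ∪ {p false, p true}) = X' := by
    rw [hX', hXdef, Set.union_assoc]
  have hpA : ∀ s, ¬ A (p s) := fun s hs => hpX s (Or.inl (h.act _ hs))
  have hpu : ∀ s, p s ≠ u := fun s e => hpX s (e ▸ huX)
  have hpne : p false ≠ p true := by
    intro e
    have e1 : δ • c false = δ • c true := by
      simpa [hp] using e
    have e2 : c false = c true := by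
      have := congrArg (fun y => δ⁻¹ • y) e1
      simpa [smul_smul, inv_mul_cancel₀ hδ0.ne'] using this
    obtain ⟨l, hl1, hl2, -⟩ := hP0 true true
    have h2 := hl2 hA
    have e3 := congrArg l e2
    rw [hc, hc, sg_true, sg_false] at e3
    rw [sg_true] at h2
    linarith
  -- values on the new directions
  have hneg : ∀ l : E →ₗ[ℝ] ℝ, |l (om u)| < - (κ * l (x - u)) → ∀ s, l (c s) < 0 := by
    intro l hl s
    rw [hc]
    have h1 := neg_abs_le (l (om u))
    have h2 := le_abs_self (l (om u))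
    cases s
    · rw [sg_false]; linarith
    · rw [sg_true]; linarith
  -- faces through `u`
  have C2 : ∀ F ⊆ X, ∀ z ∈ X, z ≠ u → u ∈ F → x ∉ F → PairOK X F A om u z →
      PairOK X' F A om' u z := by
    intro F hFX z hz hzu huF hxF hP s t
    obtain ⟨l, h1, h2, h3, h4⟩ := hζ F hFX z hz huF hxF hP s t
    refine ⟨l, Exposes.near hFX h1 huF (hneg l h2 false) (hneg l h2 true) hδ0, fun _ => ?_,
      fun hAz => ?_⟩
    · rw [hom'u]; exact h3
    · rw [hom'z z hzu]; exact h4 hAz
  -- faces away from `u`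
  have C1 : ∀ F ⊆ X, ∀ a ∈ X, ∀ b ∈ X, a ≠ u → b ≠ u → u ∉ F → PairOK X F A om a b →
      PairOK X' F A om' a b := by
    intro F hFX a ha b hb hau hbu huF hP s t
    obtain ⟨l, h1, h2, h3⟩ := hδ1 F hFX a ha b hb huF hP s t
    refine ⟨l, h1, fun hAz => ?_, fun hAz => ?_⟩
    · rw [hom'z a hau]; exact h2 hAz
    · rw [hom'z b hbu]; exact h3 hAz
  -- new point and old point
  have C4 : ∀ s, ∀ z ∈ X, z ≠ u → PairOK X' {p s, z} A om' (p s) z := by
    intro s z hz hzu s1 t1
    obtain ⟨l, h1, h2⟩ := hδ2 z hz hzu s t1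
    refine ⟨l, ?_, fun hAz => absurd hAz (hpA s), fun hAz => ?_⟩
    · have : X ∪ {u + δ • c s, u + δ • c (!s)} = X' := hX's s
      rw [← this]
      exact h1
    · rw [hom'z z hzu]; exact h2 hAz
  -- the functionals exposing the new quadrilateral
  have hQ : ∀ t : Bool, ∃ f : E →ₗ[ℝ] ℝ, Exposes X' ({u, x} ∪ {p false, p true}) f ∧
      0 < sg t * f w' := by
    intro t
    obtain ⟨f, hf1, hf2, hf3, hf4⟩ := hθ t
    have hcs : ∀ s, f (c s) = 0 := by
      intro s
      rw [hc, hf2, hf3]; ring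
    refine ⟨f, Exposes.absorb ?_ hf1 (by simp) (hcs false) (hcs true) δ, ?_⟩
    · intro y hy
      simp only [mem_insert_iff, mem_singleton_iff] at hy
      rcases hy with rfl | rfl
      · exact huX
      · exact hxX
    · rw [hw', map_add, map_smul, hf2, zero_add, smul_eq_mul]
      have e : sg t * (ζ * f θ) = ζ * (sg t * f θ) := by ring
      rw [e]
      positivity
  -- `u` and a new point
  have C5 : ∀ s t : Bool, ∃ l : E →ₗ[ℝ] ℝ, Exposes X' {u, p s} l ∧ 0 < sg t * l w' := by
    intro s t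
    obtain ⟨l, hl1, hl2, -⟩ := hP0 s true
    have hls := hl2 hA
    have hlx : l (x - u) = 0 := by
      rw [map_sub]
      have : l x = l u := hl1.eq (by simp) (by simp) hxX
      linarith
    set ρ : ℝ := (sg s * l (om u)) / (- (κ * h0 (x - u))) with hρ
    have hden : 0 < - (κ * h0 (x - u)) := by nlinarith
    have hρ0 : 0 < ρ := div_pos hls hden
    have hρe : ρ * (- (κ * h0 (x - u))) = sg s * l (om u) := div_mul_cancel₀ _ hden.ne'
    set b : E →ₗ[ℝ] ℝ := l + ρ • h0 with hb
    have hbe : Exposes X {u} b := by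
      have := hl1.inter (hh0.smul hρ0)
      have e : ({u, x} : Set E) ∩ {u} = {u} := by
        ext y
        simp only [mem_inter_iff, mem_insert_iff, mem_singleton_iff]
        tauto
      rwa [e] at this
    have hbx : b (x - u) = ρ * h0 (x - u) := by
      simp only [hb, LinearMap.add_apply, LinearMap.smul_apply, smul_eq_mul, hlx, zero_add]
    have hbw : b (om u) = l (om u) := by
      simp only [hb, LinearMap.add_apply, LinearMap.smul_apply, smul_eq_mul, hh0w]
      ring
    have hbs : b (c s) = 0 := by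
      rw [hc, hbx, hbw]; nlinarith [hρe]
    have hbs' : b (c (!s)) < 0 := by
      rw [hc, hbx, hbw, sg_not]; nlinarith [hρe]
    have hbX : Exposes X' ({u} ∪ {p s}) b := by
      have := Exposes.half (by simpa using huX) hbe (mem_singleton u) hbs hbs' hδ0
      rw [← hX's s]
      exact this
    obtain ⟨f, hf1, hf2⟩ := hQ t
    have evν : ∀ᶠ ν in 𝓝[>] (0 : ℝ), 0 < sg t * (f w' + ν * b w') := by
      apply ev_lt_of_continuousAt (by fun_prop) (by fun_prop)
      simpa using hf2
    obtain ⟨ν, hν, hν0⟩ := (evν.and ev_pos).exists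
    refine ⟨f + ν • b, ?_, ?_⟩
    · have := hf1.inter (hbX.smul hν0)
      have e : ({u, x} ∪ {p false, p true} : Set E) ∩ ({u} ∪ {p s}) = {u, p s} := by
        rw [inter_eq_right.mpr]
        · rfl
        · intro y hy
          rcases hy with hy | hy
          · rw [mem_singleton_iff] at hy; exact Or.inl (by simp [hy])
          · rw [mem_singleton_iff] at hy
            subst hy
            cases s
            · exact Or.inr (by simp)
            · exact Or.inr (by simp)
      rwa [e] at this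
    · simpa [LinearMap.add_apply, LinearMap.smul_apply, smul_eq_mul] using hν
  have hxu' : ({u, x} ∪ {p false, p true} : Set E) = {u, x, p false, p true} := by
    rw [Set.insert_union, Set.singleton_union]
  have sub2 : ∀ a ∈ X, ∀ b ∈ X, ({a, b} : Set E) ⊆ X := by
    intro a ha b hb y hy
    rcases hy with hy | hy
    · rw [hy]; exact ha
    · rw [mem_singleton_iff] at hy; rw [hy]; exact hb
  have hVX : ∀ a ∈ V, a ∈ X := fun a ha => Or.inl ha
  have hKX : ∀ a ∈ K, a ∈ X := fun a ha => Or.inr ha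
  have hK'cases : ∀ k ∈ K ∪ {p false, p true}, k ∈ K ∨ ∃ s, k = p s := by
    intro k hk
    rcases hk with hk | hk | hk
    · exact Or.inl hk
    · exact Or.inr ⟨false, hk⟩
    · rw [mem_singleton_iff] at hk; exact Or.inr ⟨true, hk⟩
  refine ⟨K ∪ {p false, p true}, om', fun a b k k' => D a b k k' ∨
    (a = u ∧ b = x ∧ k = p false ∧ k' = p true), subset_union_left, ?_⟩
  refine ⟨h.finV, h.finK.union (by simp), ?_, h.act, ?_, ?_, ?_, ?_, ?_, ?_, ?_⟩
  · -- disj
    intro a ha hk
    rcases hK'cases a hk with hk | ⟨s, rfl⟩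
    · exact h.disj a ha hk
    · exact hpX s (hVX _ ha)
  · exact ⟨k1, Or.inl hk1, k2, Or.inl hk2, hk12⟩
  · -- done_symm
    intro a b hd
    rcases hd with hd | hd | hd
    · exact Or.inl (h.done_symm a b hd)
    · exact Or.inr (Or.inr ⟨hd.2, hd.1⟩)
    · exact Or.inr (Or.inl ⟨hd.2, hd.1⟩)
  · -- vv
    intro a ha b hb hab hd
    rw [hVK]
    push Not at hd
    obtain ⟨hd1, hd2, hd3⟩ := hd
    have hP := h.vv a ha b hb hab hd1
    by_cases hau : a = u
    · subst hau
      have hbx : b ≠ x := hd2 rfl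
      apply C2 _ (sub2 _ (hVX _ ha) _ (hVX _ hb)) b (hVX _ hb) (Ne.symm hab) (by simp)
        (by simp only [mem_insert_iff, mem_singleton_iff, not_or]; exact ⟨hux.symm, hbx.symm⟩) hP
    · by_cases hbu : b = u
      · subst hbu
        have hax : a ≠ x := fun e => (hd3 e) rfl
        apply PairOK.symm
        apply C2 _ (sub2 _ (hVX _ ha) _ (hVX _ hb)) a (hVX _ ha) hab (by simp)
          (by simp only [mem_insert_iff, mem_singleton_iff, not_or]; exact ⟨hax.symm, hux.symm⟩)
          hP.symm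
      · exact C1 _ (sub2 _ (hVX _ ha) _ (hVX _ hb)) a (hVX _ ha) b (hVX _ hb) hau hbu
          (by simp only [mem_insert_iff, mem_singleton_iff, not_or];
              exact ⟨fun e => hau e.symm, fun e => hbu e.symm⟩) hP
  · -- vk
    intro a ha k hk0
    rw [hVK]
    rcases hK'cases k hk0 with hk | ⟨s, rfl⟩
    · have hP := h.vk a ha k hk
      by_cases hau : a = u
      · subst hau
        exact C2 _ (sub2 _ (hVX _ ha) _ (hKX _ hk)) k (hKX _ hk) (huK k hk).symm (by simp)
          (by simp only [mem_insert_iff, mem_singleton_iff, not_or]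
              exact ⟨hux.symm, hxK k hk⟩) hP
      · exact C1 _ (sub2 _ (hVX _ ha) _ (hKX _ hk)) a (hVX _ ha) k (hKX _ hk) hau (huK k hk).symm
          (by simp only [mem_insert_iff, mem_singleton_iff, not_or]
              exact ⟨fun e => hau e.symm, huK k hk⟩) hP
    · by_cases hau : a = u
      · subst hau
        intro s1 t1
        obtain ⟨l, h1, h2⟩ := C5 s s1
        refine ⟨l, h1, fun _ => ?_, fun hAz => absurd hAz (hpA s)⟩
        rw [hom'u]; exact h2
      · have := C4 s a (hVX _ ha) hau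
        have := this.symm
        rwa [Set.pair_comm] at this
  · -- kk
    intro k hk k' hk' hkk'
    rw [hVK]
    rcases hK'cases k hk with hk | ⟨s, rfl⟩
    · rcases hK'cases k' hk' with hk' | ⟨s', rfl⟩
      · rcases h.kk k hk k' hk' hkk' with hP | ⟨a, b, hD⟩
        · left
          exact C1 _ (sub2 _ (hKX _ hk) _ (hKX _ hk')) k (hKX _ hk) k' (hKX _ hk') (huK k hk).symm
            (huK k' hk').symm (by simp only [mem_insert_iff, mem_singleton_iff, not_or]
                                  exact ⟨huK k hk, huK k' hk'⟩) hP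
        · right
          refine ⟨a, b, ?_⟩
          rcases hD with hD | hD
          · exact Or.inl (Or.inl hD)
          · exact Or.inr (Or.inl hD)
      · left
        have := (C4 s' k (hKX _ hk) (huK k hk).symm).symm
        rwa [Set.pair_comm] at this
    · rcases hK'cases k' hk' with hk' | ⟨s', rfl⟩
      · left
        exact C4 s k' (hKX _ hk') (huK k' hk').symm
      · right
        refine ⟨u, x, ?_⟩
        cases s <;> cases s'
        · exact absurd rfl hkk'
        · exact Or.inl (Or.inr ⟨rfl, rfl, rfl, rfl⟩)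
        · exact Or.inr (Or.inr ⟨rfl, rfl, rfl, rfl⟩)
        · exact absurd rfl hkk'
  · -- dead
    intro a ha b hb hab hd
    rcases hd with hd | ⟨rfl, rfl⟩ | ⟨rfl, rfl⟩
    · obtain ⟨k, k', hD⟩ := h.dead a ha b hb hab hd
      refine ⟨k, k', ?_⟩
      rcases hD with hD | hD
      · exact Or.inl (Or.inl hD)
      · exact Or.inr (Or.inl hD)
    · exact ⟨p false, p true, Or.inl (Or.inr ⟨rfl, rfl, rfl, rfl⟩)⟩
    · exact ⟨p false, p true, Or.inr (Or.inr ⟨rfl, rfl, rfl, rfl⟩)⟩
  · -- quad
    intro a b k k' hD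
    rw [hVK]
    rcases hD with hD | ⟨rfl, rfl, rfl, rfl⟩
    · obtain ⟨ha, hb, hk, hk', hab, hkk', hdn, hcr, hP⟩ := h.quad a b k k' hD
      refine ⟨ha, hb, Or.inl hk, Or.inl hk', hab, hkk', Or.inl hdn, hcr, ?_⟩
      have hsub : ({a, b, k, k'} : Set E) ⊆ X := by
        intro y hy
        simp only [mem_insert_iff, mem_singleton_iff] at hy
        rcases hy with rfl | rfl | rfl | rfl
        · exact hVX _ ha
        · exact hVX _ hb
        · exact hKX _ hk
        · exact hKX _ hk'
      by_cases hau : a = u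
      · subst hau
        have hxb : x ≠ b := fun e => hnd (e ▸ hdn)
        exact C2 _ hsub b (hVX _ hb) (Ne.symm hab) (by simp)
          (by simp only [mem_insert_iff, mem_singleton_iff, not_or]
              exact ⟨hux.symm, hxb, hxK k hk, hxK k' hk'⟩) hP
      · by_cases hbu : b = u
        · subst hbu
          have hxa : x ≠ a := fun e => hnd (h.done_symm _ _ (e ▸ hdn))
          apply PairOK.symm
          exact C2 _ hsub a (hVX _ ha) hab (by simp)
            (by simp only [mem_insert_iff, mem_singleton_iff, not_or]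
                exact ⟨hxa, hux.symm, hxK k hk, hxK k' hk'⟩) hP.symm
        · exact C1 _ hsub a (hVX _ ha) b (hVX _ hb) hau hbu
            (by simp only [mem_insert_iff, mem_singleton_iff, not_or]
                exact ⟨fun e => hau e.symm, fun e => hbu e.symm, huK k hk, huK k' hk'⟩) hP
    · refine ⟨hu, hx, Or.inr (by simp), Or.inr (by simp), hux, hpne,
        Or.inr (Or.inl ⟨rfl, rfl⟩), ⟨δ * κ, by positivity, hδ4, ?_⟩, ?_⟩
      · simp only [hp, hcdef, sg_true, sg_false]
        module
      · intro s t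
        obtain ⟨f, hf1, hf2⟩ := hQ s
        refine ⟨f, by rw [← hxu']; exact hf1, fun _ => ?_, fun hAz => absurd hAz hxA⟩
        rw [hom'u]; exact hf2

end Step

end Pool.Agent.H.MP_2da123_co
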