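import Pool.Agent.H.MP_2da123_co.Defs
import Pool.Agent.H.MP_2da123_co.Step

/-!
The moment curve in dimension four and the induction over all non-edges.
-/

namespace Pool.Agent.H.MP_2da123_co

open Set Module

/-- The moment curve. -/
noncomputable def gam (t : ℝ) : Eu 4 := ![t, t ^ 2, t ^ 3, t ^ 4]

/-- The derivative of the moment curve. -/
noncomputable def gam' (t : ℝ) : Eu 4 := ![1, 2 * t, 3 * t ^ 2, 4 * t ^ 3]

theorem gam_zero (t : ℝ) : gam t 0 = t := by simp [gam]

theorem gam_injective : Function.Injective gam := by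
  intro s t h
  rw [← gam_zero s, ← gam_zero t, h]

/-- A linear functional given by its coefficients. -/
noncomputable def coef (c0 c1 c2 c3 : ℝ) : Eu 4 →ₗ[ℝ] ℝ where
  toFun x := c0 * x 0 + c1 * x 1 + c2 * x 2 + c3 * x 3
  map_add' x y := by simp only [Pi.add_apply]; ring
  map_smul' c x := by simp only [Pi.smul_apply, smul_eq_mul, RingHom.id_apply]; ring

theorem coef_gam (c0 c1 c2 c3 t : ℝ) :
    coef c0 c1 c2 c3 (gam t) = c0 * t + c1 * t ^ 2 + c2 * t ^ 3 + c3 * t ^ 4 := by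
  simp [coef, gam]

theorem coef_gam' (c0 c1 c2 c3 t : ℝ) :
    coef c0 c1 c2 c3 (gam' t) = c0 + c1 * (2 * t) + c2 * (3 * t ^ 2) + c3 * (4 * t ^ 3) := by
  simp [coef, gam']

/-- The functional with values `e₄ - (t-a)(t-b)(t-c)(t-d)` on the moment curve. -/
noncomputable def rootFun (a b c d : ℝ) : Eu 4 →ₗ[ℝ] ℝ :=
  coef (a * b * c + a * b * d + a * c * d + b * c * d)
    (-(a * b + a * c + a * d + b * c + b * d + c * d)) (a + b + c + d) (-1)

theorem rootFun_gam (a b c d t : ℝ) :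
    rootFun a b c d (gam t) = a * b * c * d - (t - a) * (t - b) * (t - c) * (t - d) := by
  rw [rootFun, coef_gam]; ring

theorem rootFun_gam' (a b c d : ℝ) :
    rootFun a b c d (gam' a) = - ((a - b) * (a - c) * (a - d)) := by
  rw [rootFun, coef_gam']; ring

theorem rootFun_swap (a b c d : ℝ) : rootFun a b c d = rootFun c d a b := by
  unfold rootFun
  congr 1 <;> ring

/-- The direction attached to a point. -/
noncomputable def om0 (y : Eu 4) : Eu 4 := gam' (y 0)

theorem om0_gam (t : ℝ) : om0 (gam t) = gam' t := by rw [om0, gam_zero]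

theorem int_ineq (n i : ℕ) (h : n ≠ i) (s : Bool) :
    0 < ((n : ℝ) - i) * ((n : ℝ) - (i + sg s / 2)) := by
  rcases lt_or_gt_of_ne h with h | h
  · have h1 : (n : ℝ) + 1 ≤ i := by exact_mod_cast h
    cases s
    · rw [sg_false]; nlinarith
    · rw [sg_true]; nlinarith
  · have h1 : (i : ℝ) + 1 ≤ n := by exact_mod_cast h
    cases s
    · rw [sg_false]; nlinarith
    · rw [sg_true]; nlinarith

theorem pairOK_gam {X : Set (Eu 4)} (hX : ∀ y ∈ X, ∃ n : ℕ, y = gam n) (A : Eu 4 → Prop)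
    {i j : ℕ} (hij : i ≠ j) : PairOK X {gam i, gam j} A om0 (gam i) (gam j) := by
  intro s t
  refine ⟨rootFun i (i + sg s / 2) j (j + sg t / 2), ?_, fun _ => ?_, fun _ => ?_⟩
  · have hval : ∀ a ∈ ({gam i, gam j} : Set (Eu 4)),
        rootFun i (i + sg s / 2) j (j + sg t / 2) a
          = i * (i + sg s / 2) * j * (j + sg t / 2) := by
      intro a ha
      rcases ha with ha | ha
      · rw [ha, rootFun_gam]; ring
      · rw [mem_singleton_iff] at ha
        rw [ha, rootFun_gam]; ring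
    intro a ha y hy
    refine ⟨fun hyF => by rw [hval a ha, hval y hyF], fun hyF => ?_⟩
    rw [hval a ha]
    obtain ⟨n, rfl⟩ := hX y hy
    simp only [mem_insert_iff, mem_singleton_iff, not_or] at hyF
    have hni : n ≠ i := fun e => hyF.1 (by rw [e])
    have hnj : n ≠ j := fun e => hyF.2 (by rw [e])
    rw [rootFun_gam]
    have h1 := int_ineq n i hni s
    have h2 := int_ineq n j hnj t
    have h3 := mul_pos h1 h2
    nlinarith [h3]
  · rw [om0_gam, rootFun_gam']
    have h1 := int_ineq i j hij t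
    have e : sg s * -(((i : ℝ) - (i + sg s / 2)) * (i - j) * (i - (j + sg t / 2)))
        = (sg s * sg s) / 2 * (((i : ℝ) - j) * (i - (j + sg t / 2))) := by ring
    rw [e, sg_sq]
    positivity
  · rw [om0_gam, rootFun_swap, rootFun_gam']
    have h1 := int_ineq j i hij.symm s
    have e : sg t * -(((j : ℝ) - (j + sg t / 2)) * (j - i) * (j - (i + sg s / 2)))
        = (sg t * sg t) / 2 * (((j : ℝ) - i) * (j - (i + sg s / 2))) := by ring
    rw [e, sg_sq]
    positivity

theorem Inv.mono {E : Type*} [AddCommGroup E] [Module ℝ E] {V K : Set E} {A A' : E → Prop}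
    {om : E → E} {D : E → E → E → E → Prop} {Done : E → E → Prop} (h : Inv V K A om D Done)
    (hA : ∀ y, A' y → A y) : Inv V K A' om D Done where
  finV := h.finV
  finK := h.finK
  disj := h.disj
  act a ha := h.act a (hA a ha)
  twoK := h.twoK
  done_symm := h.done_symm
  vv a ha b hb hab hd := (h.vv a ha b hb hab hd).mono hA
  vk a ha k hk := (h.vk a ha k hk).mono hA
  kk k hk k' hk' hkk' := by
    rcases h.kk k hk k' hk' hkk' with h1 | h1
    · exact Or.inl (h1.mono hA)
    · exact Or.inr h1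
  dead := h.dead
  quad a b k k' hD := by
    obtain ⟨h1, h2, h3, h4, h5, h6, h7, h8, h9⟩ := h.quad a b k k' hD
    exact ⟨h1, h2, h3, h4, h5, h6, h7, h8, h9.mono hA⟩

/-- The relation of the pairs destroyed after stage `(u, y)`. -/
def DoneRel {m : ℕ} (G : SimpleGraph (Fin m)) (u y : ℕ) (a b : Eu 4) : Prop :=
  ∃ i j : Fin m, a = gam (i : ℕ) ∧ b = gam (j : ℕ) ∧ i ≠ j ∧ ¬ G.Adj i j ∧
    (max (i : ℕ) j < u ∨ (max (i : ℕ) j = u ∧ min (i : ℕ) j < y))

/-- The vertex set. -/
def Vset (m : ℕ) : Set (Eu 4) := range fun i : Fin m => gam (i : ℕ)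

/-- The initial additional points. -/
def K0set (m : ℕ) : Set (Eu 4) := range fun i : Fin 5 => gam ((m + (i : ℕ) : ℕ) : ℝ)

/-- The active points at stage `u`. -/
def ActRel (m u : ℕ) (a : Eu 4) : Prop := ∃ i : Fin m, a = gam (i : ℕ) ∧ u ≤ i

theorem gam_nat_inj {i j : ℕ} (h : gam (i : ℝ) = gam (j : ℝ)) : i = j := by
  exact_mod_cast gam_injective h

theorem stage_zero {m : ℕ} (G : SimpleGraph (Fin m)) :
    Inv (Vset m) (K0set m) (ActRel m 0) om0 (fun _ _ _ _ => False) (DoneRel G 0 0) := by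
  have hX : ∀ y ∈ Vset m ∪ K0set m, ∃ n : ℕ, y = gam n := by
    rintro y (⟨i, rfl⟩ | ⟨i, rfl⟩)
    · exact ⟨i, rfl⟩
    · exact ⟨m + i, rfl⟩
  have hno : ∀ a b, ¬ DoneRel G 0 0 a b := by
    rintro a b ⟨i, j, -, -, -, -, h | h⟩
    · exact absurd h (Nat.not_lt_zero _)
    · exact absurd h.2 (Nat.not_lt_zero _)
  refine ⟨finite_range _, finite_range _, ?_, ?_, ?_, ?_, ?_, ?_, ?_, ?_, ?_⟩
  · rintro _ ⟨i, rfl⟩ ⟨j, hj⟩
    have := gam_nat_inj hj
    have h1 := i.isLt
    omega
  · rintro a ⟨i, rfl, -⟩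
    exact ⟨i, rfl⟩
  · refine ⟨_, ⟨0, rfl⟩, _, ⟨1, rfl⟩, ?_⟩
    intro e
    have := gam_nat_inj e
    simp at this
  · intro a b h
    exact absurd h (hno a b)
  · rintro _ ⟨i, rfl⟩ _ ⟨j, rfl⟩ hab -
    apply pairOK_gam hX
    intro e
    exact hab (by simp only [e])
  · rintro _ ⟨i, rfl⟩ _ ⟨j, rfl⟩
    apply pairOK_gam hX
    have h1 := i.isLt
    omega
  · rintro _ ⟨i, rfl⟩ _ ⟨j, rfl⟩ hab
    left
    apply pairOK_gam hX
    intro e
    exact hab (by simp only [e])
  · intro a _ b _ _ h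
    exact absurd h (hno a b)
  · intro a b k k' h
    exact h.elim

/-- The state after stage `(u, y)`. -/
def Stage {m : ℕ} (G : SimpleGraph (Fin m)) (u y : ℕ) : Prop :=
  ∃ K om D, K0set m ⊆ K ∧ Inv (Vset m) K (ActRel m u) om D (DoneRel G u y)

theorem stage_inner {m : ℕ} (G : SimpleGraph (Fin m)) {u y : ℕ} (hu : u < m) (hy : y < u)
    (h : Stage G u y) : Stage G u (y + 1) := by
  obtain ⟨K, om, D, hK, hI⟩ := h
  set iu : Fin m := ⟨u, hu⟩ with hiu
  set iy : Fin m := ⟨y, hy.trans hu⟩ with hiy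
  by_cases hadj : G.Adj iu iy
  · refine ⟨K, om, D, hK, ?_⟩
    have e : DoneRel G u (y + 1) = DoneRel G u y := by
      funext a b
      apply propext
      constructor
      · rintro ⟨i, j, ha, hb, hij, hn, h1 | ⟨h1, h2⟩⟩
        · exact ⟨i, j, ha, hb, hij, hn, Or.inl h1⟩
        · refine ⟨i, j, ha, hb, hij, hn, Or.inr ⟨h1, ?_⟩⟩
          by_contra h3
          have h4 : min (i : ℕ) j = y := by omega
          have h5 : (i = iu ∧ j = iy) ∨ (i = iy ∧ j = iu) := by
            simp only [Fin.ext_iff, hiu, hiy]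
            omega
          rcases h5 with ⟨rfl, rfl⟩ | ⟨rfl, rfl⟩
          · exact hn hadj
          · exact hn hadj.symm
      · rintro ⟨i, j, ha, hb, hij, hn, h1 | ⟨h1, h2⟩⟩
        · exact ⟨i, j, ha, hb, hij, hn, Or.inl h1⟩
        · exact ⟨i, j, ha, hb, hij, hn, Or.inr ⟨h1, by omega⟩⟩
    rw [e]; exact hI
  · have huV : gam (u : ℝ) ∈ Vset m := ⟨iu, rfl⟩
    have hyV : gam (y : ℝ) ∈ Vset m := ⟨iy, rfl⟩
    have hdim : 4 ≤ finrank ℝ (Eu 4) := by simp
    obtain ⟨K', om', D', hKK, hI'⟩ := hI.step (u := gam (u : ℝ)) (x := gam (y : ℝ)) hdim huV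
      ⟨iu, rfl, le_refl u⟩ hyV
      (by
        rintro ⟨i, hi, hiu⟩
        have := gam_nat_inj hi
        omega)
      (by
        intro e
        have := gam_nat_inj e
        omega)
      (by
        rintro ⟨i, j, ha, hb, hij, hn, h1⟩
        have h2 := gam_nat_inj ha
        have h3 := gam_nat_inj hb
        rcases h1 with h1 | ⟨h1, h4⟩
        · omega
        · omega)
    refine ⟨K', om', D', hK.trans hKK, ?_⟩
    have e : (fun a b => DoneRel G u y a b ∨ (a = gam (u : ℝ) ∧ b = gam (y : ℝ)) ∨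
        (a = gam (y : ℝ) ∧ b = gam (u : ℝ))) = DoneRel G u (y + 1) := by
      funext a b
      apply propext
      constructor
      · rintro (⟨i, j, ha, hb, hij, hn, h1⟩ | ⟨rfl, rfl⟩ | ⟨rfl, rfl⟩)
        · refine ⟨i, j, ha, hb, hij, hn, ?_⟩
          rcases h1 with h1 | ⟨h1, h2⟩
          · exact Or.inl h1
          · exact Or.inr ⟨h1, by omega⟩
        · refine ⟨iu, iy, rfl, rfl, ?_, hadj, Or.inr ⟨?_, ?_⟩⟩
          · simp only [ne_eq, Fin.ext_iff, hiu, hiy]; omega
          · simp only [hiu, hiy]; omega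
          · simp only [hiu, hiy]; omega
        · refine ⟨iy, iu, rfl, rfl, ?_, fun h => hadj h.symm, Or.inr ⟨?_, ?_⟩⟩
          · simp only [ne_eq, Fin.ext_iff, hiu, hiy]; omega
          · simp only [hiu, hiy]; omega
          · simp only [hiu, hiy]; omega
      · rintro ⟨i, j, ha, hb, hij, hn, h1 | ⟨h1, h2⟩⟩
        · exact Or.inl ⟨i, j, ha, hb, hij, hn, Or.inl h1⟩
        · by_cases h3 : min (i : ℕ) j < y
          · exact Or.inl ⟨i, j, ha, hb, hij, hn, Or.inr ⟨h1, h3⟩⟩
          · have h5 : (i = iu ∧ j = iy) ∨ (i = iy ∧ j = iu) := by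
              simp only [Fin.ext_iff, hiu, hiy]
              omega
            rcases h5 with ⟨rfl, rfl⟩ | ⟨rfl, rfl⟩
            · exact Or.inr (Or.inl ⟨ha, hb⟩)
            · exact Or.inr (Or.inr ⟨ha, hb⟩)
    rw [← e]
    exact hI'

theorem stage_outer {m : ℕ} (G : SimpleGraph (Fin m)) {u : ℕ} (hu : u < m)
    (h : Stage G u 0) : Stage G (u + 1) 0 := by
  have h1 : ∀ y, y ≤ u → Stage G u y := by
    intro y
    induction y with
    | zero => intro _; exact h
    | succ y ih => intro hy; exact stage_inner G hu (by omega) (ih (by omega))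
  obtain ⟨K, om, D, hK, hI⟩ := h1 u le_rfl
  refine ⟨K, om, D, hK, ?_⟩
  have e : DoneRel G u u = DoneRel G (u + 1) 0 := by
    funext a b
    apply propext
    constructor
    · rintro ⟨i, j, ha, hb, hij, hn, h1⟩
      refine ⟨i, j, ha, hb, hij, hn, Or.inl ?_⟩
      omega
    · rintro ⟨i, j, ha, hb, hij, hn, h1⟩
      refine ⟨i, j, ha, hb, hij, hn, ?_⟩
      have : (i : ℕ) ≠ j := fun e => hij (Fin.ext e)
      omega
  rw [← e]
  apply hI.mono
  rintro a ⟨i, rfl, hi⟩
  exact ⟨i, rfl, by omega⟩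

theorem stage_all {m : ℕ} (G : SimpleGraph (Fin m)) : Stage G m 0 := by
  have h1 : ∀ u, u ≤ m → Stage G u 0 := by
    intro u
    induction u with
    | zero => intro _; exact ⟨_, _, _, le_refl _, stage_zero G⟩
    | succ u ih => intro hu; exact stage_outer G (by omega) (ih (by omega))
  exact h1 m le_rfl

end Pool.Agent.H.MP_2da123_co
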