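import Pool.Agent.H.MP_2da123_co.PolyGraph

/-!
The `3`-polytopes: a Hamiltonian outerplanar graph plus one universal vertex.
-/

namespace Pool.Agent.H.MP_2da123_co

open Set Module

section Comb

/-- The product `(t - a)(t - b)`. -/
def ell (a b t : ℕ) : ℝ := ((t : ℝ) - a) * ((t : ℝ) - b)

variable {m : ℕ}

/-- No two edges cross. -/
def NonCross (H : SimpleGraph (Fin m)) : Prop :=
  ∀ i j k l : Fin m, i < j → j < k → k < l → ¬ (H.Adj i k ∧ H.Adj j l)

/-- Cyclically consecutive vertices are adjacent. -/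
def HamCyc (H : SimpleGraph (Fin m)) : Prop :=
  ∀ i j : Fin m, (j : ℕ) = ((i : ℕ) + 1) % m → H.Adj i j

theorem ell_nonneg_of_le {a b t : ℕ} (hab : a ≤ b) (h : t ≤ a ∨ b ≤ t) : 0 ≤ ell a b t := by
  unfold ell
  rcases h with h | h
  · have h1 : (t : ℝ) ≤ a := by exact_mod_cast h
    have h2 : (t : ℝ) ≤ b := by exact_mod_cast h.trans hab
    nlinarith
  · have h1 : (b : ℝ) ≤ t := by exact_mod_cast h
    have h2 : (a : ℝ) ≤ t := by exact_mod_cast hab.trans h
    nlinarith

theorem ell_nonpos_of_le {a b t : ℕ} (h1 : a ≤ t) (h2 : t ≤ b) : ell a b t ≤ 0 := by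
  unfold ell
  have h1 : (a : ℝ) ≤ t := by exact_mod_cast h1
  have h2 : (t : ℝ) ≤ b := by exact_mod_cast h2
  nlinarith

/-- Two edges of a non-crossing graph: the endpoints of one are on one side of the other. -/
theorem same_side {H : SimpleGraph (Fin m)} (hH : NonCross H) {a b p q : Fin m} (hab : a < b)
    (hpq : p < q) (h1 : H.Adj a b) (h2 : H.Adj p q) :
    (0 ≤ ell p q a ∧ 0 ≤ ell p q b) ∨ (ell p q a ≤ 0 ∧ ell p q b ≤ 0) := by
  have hA : ¬ (a < p ∧ p < b ∧ b < q) := fun h => hH a p b q h.1 h.2.1 h.2.2 ⟨h1, h2⟩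
  have hB : ¬ (p < a ∧ a < q ∧ q < b) := fun h => hH p a q b h.1 h.2.1 h.2.2 ⟨h2, h1⟩
  rw [Fin.lt_def] at hab hpq
  simp only [Fin.lt_def] at hA hB
  by_cases hin : (p : ℕ) ≤ a ∧ (b : ℕ) ≤ q
  · right
    exact ⟨ell_nonpos_of_le hin.1 (by omega), ell_nonpos_of_le (by omega) hin.2⟩
  · left
    refine ⟨ell_nonneg_of_le hpq.le ?_, ell_nonneg_of_le hpq.le ?_⟩
    · omega
    · omega

/-- For a non-adjacent pair `i < j` there are vertices `a` and `b` on the two sides of it which
are not separated by any edge. -/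
theorem exists_cross {H : SimpleGraph (Fin m)} (hm : 3 ≤ m) (hH : NonCross H) (hC : HamCyc H)
    {i j : Fin m} (hij : i < j) (hadj : ¬ H.Adj i j) :
    ∃ a b : Fin m, i < a ∧ a < j ∧ (b < i ∨ j < b) ∧
      ∀ p q : Fin m, p < q → H.Adj p q →
        (0 ≤ ell p q a ∧ 0 ≤ ell p q b) ∨ (ell p q a ≤ 0 ∧ ell p q b ≤ 0) := by
  classical
  by_cases hcr : ∃ a b : Fin m, H.Adj a b ∧ i < a ∧ a < j ∧ (b < i ∨ j < b)
  · obtain ⟨a, b, hab, h1, h2, h3⟩ := hcr
    refine ⟨a, b, h1, h2, h3, fun p q hpq hadj' => ?_⟩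
    rcases h3 with h3 | h3
    · rcases same_side hH (h3.trans h1) hpq hab.symm hadj' with h | h
      · exact Or.inl ⟨h.2, h.1⟩
      · exact Or.inr ⟨h.2, h.1⟩
    · exact same_side hH (h2.trans h3) hpq hab hadj'
  · push Not at hcr
    -- `a`: the largest neighbour of `i` before `j`
    have hi1 : (i : ℕ) + 1 < m := by
      have := j.isLt
      rw [Fin.lt_def] at hij
      omega
    have hadj1 : H.Adj i ⟨(i : ℕ) + 1, hi1⟩ := by
      apply hC
      simp only
      rw [Nat.mod_eq_of_lt hi1]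
    have hj1 : (i : ℕ) + 1 < j := by
      rw [Fin.lt_def] at hij
      by_contra hcon
      have : j = ⟨(i : ℕ) + 1, hi1⟩ := by
        apply Fin.ext
        simp only
        omega
      rw [this] at hadj
      exact hadj hadj1
    obtain ⟨a, ha, hamax⟩ := Finset.exists_max_image
      (Finset.univ.filter fun a : Fin m => i < a ∧ a < j ∧ H.Adj i a) (fun a => (a : ℕ))
      ⟨⟨(i : ℕ) + 1, hi1⟩, by
        rw [Finset.mem_filter]
        refine ⟨Finset.mem_univ _, ?_, ?_, hadj1⟩
        · rw [Fin.lt_def]; simp only; omega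
        · rw [Fin.lt_def]; simp only; omega⟩
    simp only [Finset.mem_filter, Finset.mem_univ, true_and] at ha hamax
    obtain ⟨hia, haj, hadja⟩ := ha
    -- a minimal edge around `[i, j]`
    have h0m : H.Adj (⟨0, by omega⟩ : Fin m) ⟨m - 1, by omega⟩ := by
      apply H.symm.symm
      apply hC
      simp only
      rw [Nat.sub_add_cancel (by omega), Nat.mod_self]
    obtain ⟨c, hc, hcmin⟩ := Finset.exists_min_image
      (Finset.univ.filter fun c : Fin m × Fin m => c.1 ≤ i ∧ j ≤ c.2 ∧ H.Adj c.1 c.2)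
      (fun c => (c.2 : ℕ) - c.1)
      ⟨(⟨0, by omega⟩, ⟨m - 1, by omega⟩), by
        simp only [Finset.mem_filter, Finset.mem_univ, true_and]
        refine ⟨?_, ?_, h0m⟩
        · rw [Fin.le_def]; simp
        · rw [Fin.le_def]
          have := j.isLt
          simp only
          omega⟩
    obtain ⟨p0, q0⟩ := c
    simp only [Finset.mem_filter, Finset.mem_univ, true_and] at hc hcmin
    obtain ⟨hp0, hq0, hadj0⟩ := hc
    have hmin : ∀ p q : Fin m, p ≤ i → j ≤ q → H.Adj p q → (q0 : ℕ) - p0 ≤ (q : ℕ) - p := by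
      intro p q h1 h2 h3
      exact hcmin (p, q) ⟨h1, h2, h3⟩
    have hp0q0 : p0 < q0 := lt_of_le_of_lt hp0 (lt_of_lt_of_le hij hq0)
    -- the point `b`
    obtain ⟨b, hb1, hb2⟩ : ∃ b : Fin m, (b < i ∨ j < b) ∧ (b = p0 ∨ b = q0) := by
      by_cases h : p0 < i
      · exact ⟨p0, Or.inl h, Or.inl rfl⟩
      · have h1 : p0 = i := le_antisymm hp0 (not_lt.mp h)
        by_cases h2 : j < q0
        · exact ⟨q0, Or.inr h2, Or.inr rfl⟩
        · have h3 : q0 = j := le_antisymm (not_lt.mp h2) hq0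
          rw [h1, h3] at hadj0
          exact absurd hadj0 hadj
    refine ⟨a, b, hia, haj, hb1, fun p q hpq hadj' => ?_⟩
    -- crossing facts in terms of natural numbers
    have hX1 : ¬ (i < p ∧ p < a ∧ a < q) := by
      rintro ⟨h1, h2, h3⟩
      exact hH i p a q h1 h2 h3 ⟨hadja, hadj'⟩
    have hX2 : ¬ (p < i ∧ i < q ∧ q < a) := by
      rintro ⟨h1, h2, h3⟩
      exact hH p i q a h1 h2 h3 ⟨hadj', hadja⟩
    have hX3 : ¬ (p0 < p ∧ p < q0 ∧ q0 < q) := by
      rintro ⟨h1, h2, h3⟩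
      exact hH p0 p q0 q h1 h2 h3 ⟨hadj0, hadj'⟩
    have hX4 : ¬ (p < p0 ∧ p0 < q ∧ q < q0) := by
      rintro ⟨h1, h2, h3⟩
      exact hH p p0 q q0 h1 h2 h3 ⟨hadj', hadj0⟩
    have hX5 : p = i → i < q → q < j → q ≤ a := by
      intro h1 h2 h3
      subst h1
      exact hamax q ⟨h2, h3, hadj'⟩
    have hX6 : ¬ (i < p ∧ p < j ∧ (q < i ∨ j < q)) := by
      rintro ⟨h1, h2, h3⟩
      rcases h3 with h3 | h3
      · exact absurd h3 (not_lt.mpr (hcr p q hadj' h1 h2).1)
      · exact absurd h3 (not_lt.mpr (hcr p q hadj' h1 h2).2)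
    have hX7 : ¬ (i < q ∧ q < j ∧ (p < i ∨ j < p)) := by
      rintro ⟨h1, h2, h3⟩
      rcases h3 with h3 | h3
      · exact absurd h3 (not_lt.mpr (hcr q p hadj'.symm h1 h2).1)
      · exact absurd h3 (not_lt.mpr (hcr q p hadj'.symm h1 h2).2)
    have hX8 : ¬ (p = i ∧ q = j) := by
      rintro ⟨rfl, rfl⟩
      exact hadj hadj'
    have hX9 : p ≤ i → j ≤ q → (q0 : ℕ) - p0 ≤ (q : ℕ) - p := fun h1 h2 => hmin p q h1 h2 hadj'
    simp only [Fin.lt_def, Fin.le_def, Fin.ext_iff] at *
    by_cases hin : (p : ℕ) ≤ i ∧ (j : ℕ) ≤ q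
    · right
      refine ⟨ell_nonpos_of_le (by omega) (by omega), ell_nonpos_of_le ?_ ?_⟩
      · rcases hb2 with hb2 | hb2 <;> omega
      · rcases hb2 with hb2 | hb2 <;> omega
    · left
      refine ⟨ell_nonneg_of_le hpq.le ?_, ell_nonneg_of_le hpq.le ?_⟩
      · omega
      · rcases hb2 with hb2 | hb2 <;> omega

end Comb

/-- Variant of `isPolytopal_of`: vertices of degree at least two are automatically exposed. -/
theorem isPolytopal_of' {d : ℕ} {J : Type} [Finite J] (H : SimpleGraph J) (p : J → Eu d)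
    (hdeg : ∀ a, ∃ b b', b ≠ b' ∧ H.Adj a b ∧ H.Adj a b')
    (he : ∀ a b, H.Adj a b → ∃ l : Eu d →ₗ[ℝ] ℝ, l (p a) = l (p b) ∧
      ∀ y, y ≠ a → y ≠ b → l (p y) < l (p a))
    (hn : ∀ a b, a ≠ b → ¬ H.Adj a b → ∃ s : ℝ, 0 < s ∧ s < 1 ∧
      (1 - s) • p a + s • p b ∈ convexHull ℝ (p '' {y | y ≠ a ∧ y ≠ b}))
    (hi : (interior (convexHull ℝ (range p))).Nonempty) : IsPolytopal d H := by
  refine isPolytopal_of H p ?_ he hn hi
  intro a
  obtain ⟨b, b', hbb', hab, hab'⟩ := hdeg a
  obtain ⟨l, hl1, hl2⟩ := he a b hab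
  obtain ⟨l', hl1', hl2'⟩ := he a b' hab'
  refine ⟨l + l', fun y hy => ?_⟩
  simp only [LinearMap.add_apply]
  have h1 : l (p y) ≤ l (p a) := by
    by_cases h : y = b
    · rw [h, hl1]
    · exact (hl2 y hy h).le
  have h2 : l' (p y) ≤ l' (p a) := by
    by_cases h : y = b'
    · rw [h, hl1']
    · exact (hl2' y hy h).le
  by_cases h : y = b
  · have h3 : y ≠ b' := fun e => hbb' (h.symm.trans e)
    exact add_lt_add_of_le_of_lt h1 (hl2' y hy h3)
  · exact add_lt_add_of_lt_of_le (hl2 y hy h) h2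

theorem cert_mem {E : Type*} [AddCommGroup E] [Module ℝ E] {S : Set E} {xi xj xa xb : E}
    (ha : xa ∈ S) (hb : xb ∈ S) (h0 : (0 : E) ∈ S) {α β γ δ : ℝ} (hα : 0 < α) (hβ : 0 < β)
    (hγ : 0 ≤ γ) (hδ : 0 ≤ δ) (h : α • xi + β • xj = γ • xa + δ • xb) (hle : γ + δ ≤ α + β) :
    ∃ s : ℝ, 0 < s ∧ s < 1 ∧ (1 - s) • xi + s • xj ∈ convexHull ℝ S := by
  have hab : 0 < α + β := by positivity
  refine ⟨β / (α + β), by positivity, ?_, ?_⟩
  · rw [div_lt_one hab]; linarith
  · have e1 : (1 - β / (α + β)) • xi + (β / (α + β)) • xj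
        = (γ / (α + β)) • xa + (δ / (α + β)) • xb := by
      have e2 : (1 - β / (α + β)) • xi + (β / (α + β)) • xj
          = (1 / (α + β)) • (α • xi + β • xj) := by
        rw [smul_add, smul_smul, smul_smul]
        congr 1
        · congr 1; field_simp; ring
        · congr 1; field_simp
      rw [e2, h, smul_add, smul_smul, smul_smul]
      congr 1
      · congr 1; field_simp
      · congr 1; field_simp
    rw [e1]
    have hconv := convex_convexHull ℝ S
    have key := hconv.sum_mem (t := (Finset.univ : Finset (Fin 3)))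
      (w := ![γ / (α + β), δ / (α + β), (α + β - γ - δ) / (α + β)]) (z := ![xa, xb, 0])
      (by
        intro i _
        fin_cases i
        · exact div_nonneg hγ hab.le
        · exact div_nonneg hδ hab.le
        · exact div_nonneg (by linarith) hab.le)
      (by
        simp only [Fin.sum_univ_three, Matrix.cons_val_zero, Matrix.cons_val_one, Matrix.cons_val]
        field_simp
        ring)
      (by
        intro i _
        fin_cases i
        · exact subset_convexHull ℝ S ha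
        · exact subset_convexHull ℝ S hb
        · exact subset_convexHull ℝ S h0)
    simpa [Fin.sum_univ_three] using key

section Geom

variable {m : ℕ}

/-- The functional with value `(t - a)(t - b)` at `(t, t², 1)`. -/
noncomputable def lin3 (c0 c1 c2 : ℝ) : Eu 3 →ₗ[ℝ] ℝ where
  toFun x := c0 * x 0 + c1 * x 1 + c2 * x 2
  map_add' x y := by simp only [Pi.add_apply]; ring
  map_smul' c x := by simp only [Pi.smul_apply, smul_eq_mul, RingHom.id_apply]; ring

/-- The direction of a vertex. -/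
noncomputable def dir3 (t : ℕ) : Eu 3 := ![(t : ℝ), (t : ℝ) ^ 2, 1]

theorem lin3_dir3 (c0 c1 c2 : ℝ) (t : ℕ) : lin3 c0 c1 c2 (dir3 t) = c0 * t + c1 * t ^ 2 + c2 := by
  simp [lin3, dir3]

open Classical in
/-- The edges, as ordered pairs. -/
noncomputable def epairs (H : SimpleGraph (Fin m)) : Finset (Fin m × Fin m) :=
  Finset.univ.filter fun c => c.1 < c.2 ∧ H.Adj c.1 c.2

/-- The height function. -/
noncomputable def hgt (H : SimpleGraph (Fin m)) (t : ℕ) : ℝ :=
  1 + ∑ c ∈ epairs H, max 0 (ell c.1 c.2 t)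

theorem hgt_pos (H : SimpleGraph (Fin m)) (t : ℕ) : 0 < hgt H t := by
  have : 0 ≤ ∑ c ∈ epairs H, max 0 (ell c.1 c.2 t) :=
    Finset.sum_nonneg fun c _ => le_max_left _ _
  unfold hgt
  linarith

/-- The points of the polytope. -/
noncomputable def pt3 (H : SimpleGraph (Fin m)) : Fin m ⊕ Fin 1 → Eu 3
  | Sum.inl i => (hgt H i)⁻¹ • dir3 i
  | Sum.inr _ => 0

theorem exists_edge_functional {H : SimpleGraph (Fin m)} (hH : NonCross H) {a b : Fin m}
    (hab : a < b) (hadj : H.Adj a b) :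
    ∃ l : Eu 3 →ₗ[ℝ] ℝ, l (dir3 a) = hgt H a ∧ l (dir3 b) = hgt H b ∧
      ∀ t : Fin m, t ≠ a → t ≠ b → l (dir3 t) < hgt H t := by
  classical
  set lam : Fin m × Fin m → ℝ := fun c => if c = (a, b) then 1 / 2
    else if 0 ≤ ell c.1 c.2 a ∧ 0 ≤ ell c.1 c.2 b then 1 else 0 with hlam
  set l : Eu 3 →ₗ[ℝ] ℝ := lin3 0 0 1 + ∑ c ∈ epairs H,
    lam c • lin3 (-((c.1 : ℕ) + (c.2 : ℕ))) 1 ((c.1 : ℕ) * (c.2 : ℕ)) with hl
  have hval : ∀ t : ℕ, l (dir3 t) = 1 + ∑ c ∈ epairs H, lam c * ell c.1 c.2 t := by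
    intro t
    rw [hl, LinearMap.add_apply, lin3_dir3, LinearMap.sum_apply]
    congr 1
    · ring
    · apply Finset.sum_congr rfl
      intro c _
      rw [LinearMap.smul_apply, lin3_dir3, smul_eq_mul]
      unfold ell
      ring
  have hmem : (a, b) ∈ epairs H := by
    simp [epairs, hab, hadj]
  have hlam01 : ∀ c, 0 ≤ lam c ∧ lam c ≤ 1 := by
    intro c
    simp only [hlam]
    split_ifs <;> norm_num
  have hterm : ∀ (c : Fin m × Fin m) (t : ℕ), lam c * ell c.1 c.2 t ≤ max 0 (ell c.1 c.2 t) := by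
    intro c t
    obtain ⟨h1, h2⟩ := hlam01 c
    rcases le_total 0 (ell c.1 c.2 t) with h | h
    · rw [max_eq_right h]; nlinarith
    · rw [max_eq_left h]; nlinarith
  have heq : ∀ t : Fin m, (t = a ∨ t = b) → l (dir3 t) = hgt H t := by
    intro t ht
    rw [hval]
    unfold hgt
    congr 1
    apply Finset.sum_congr rfl
    intro c hc
    by_cases hcab : c = (a, b)
    · have : ell c.1 c.2 t = 0 := by
        rw [hcab]
        unfold ell
        rcases ht with rfl | rfl <;> simp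
      rw [this]; simp
    · simp only [epairs, Finset.mem_filter, Finset.mem_univ, true_and] at hc
      simp only [hlam, if_neg hcab]
      rcases same_side hH hab hc.1 hadj hc.2 with h | h
      · rw [if_pos h, one_mul, max_eq_right]
        rcases ht with rfl | rfl
        · exact h.1
        · exact h.2
      · split_ifs with h'
        · rw [one_mul]
          rcases ht with rfl | rfl
          · have : ell c.1 c.2 t = 0 := le_antisymm h.1 h'.1
            rw [this]; simp
          · have : ell c.1 c.2 t = 0 := le_antisymm h.2 h'.2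
            rw [this]; simp
        · rw [zero_mul, max_eq_left]
          rcases ht with rfl | rfl
          · exact h.1
          · exact h.2
  refine ⟨l, heq a (Or.inl rfl), heq b (Or.inr rfl), ?_⟩
  intro t hta htb
  rw [hval]
  unfold hgt
  apply add_lt_add_of_le_of_lt le_rfl
  apply Finset.sum_lt_sum (fun c _ => hterm c t)
  refine ⟨(a, b), hmem, ?_⟩
  have hne : ell a b t ≠ 0 := by
    unfold ell
    apply mul_ne_zero
    · rw [sub_ne_zero]
      intro h
      exact hta (Fin.ext (by exact_mod_cast h))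
    · rw [sub_ne_zero]
      intro h
      exact htb (Fin.ext (by exact_mod_cast h))
  simp only [hlam, if_true]
  rcases lt_or_gt_of_ne hne with h | h
  · rw [max_eq_left h.le]; linarith
  · rw [max_eq_right h.le]; linarith

theorem exists_coeffs {i a j b : ℕ} (h1 : i < a) (h2 : a < j) (h3 : b < i ∨ j < b) :
    ∃ A B C D : ℝ, 0 < A ∧ 0 < B ∧ 0 < C ∧ 0 < D ∧
      A + B = C + D ∧ A * i + B * j = C * a + D * b ∧
      A * (i : ℝ) ^ 2 + B * (j : ℝ) ^ 2 = C * (a : ℝ) ^ 2 + D * (b : ℝ) ^ 2 := by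
  have r1 : (0 : ℝ) < a - i := by
    have : (i : ℝ) < a := by exact_mod_cast h1
    linarith
  have r2 : (0 : ℝ) < j - a := by
    have : (a : ℝ) < j := by exact_mod_cast h2
    linarith
  have r3 : (0 : ℝ) < j - i := by linarith
  rcases h3 with h3 | h3
  · have r4 : (0 : ℝ) < i - b := by
      have : (b : ℝ) < i := by exact_mod_cast h3
      linarith
    have r5 : (0 : ℝ) < a - b := by linarith
    have r6 : (0 : ℝ) < j - b := by linarith
    refine ⟨(a - b) * (j - b) * (j - a), (i - b) * (a - b) * (a - i),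
      (i - b) * (j - b) * (j - i), (a - i) * (j - i) * (j - a), by positivity, by positivity,
      by positivity, by positivity, by ring, by ring, by ring⟩
  · have r4 : (0 : ℝ) < b - j := by
      have : (j : ℝ) < b := by exact_mod_cast h3
      linarith
    have r5 : (0 : ℝ) < b - a := by linarith
    have r6 : (0 : ℝ) < b - i := by linarith
    refine ⟨(j - a) * (b - a) * (b - j), (a - i) * (b - i) * (b - a),
      (j - i) * (b - i) * (b - j), (a - i) * (j - i) * (j - a), by positivity, by positivity,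
      by positivity, by positivity, by ring, by ring, by ring⟩

theorem nonedge_cert {H : SimpleGraph (Fin m)} (hm : 3 ≤ m) (hH : NonCross H) (hC : HamCyc H)
    {i j : Fin m} (hij : i < j) (hadj : ¬ H.Adj i j) {S : Set (Eu 3)}
    (hS : ∀ t : Fin m, t ≠ i → t ≠ j → pt3 H (Sum.inl t) ∈ S) (h0 : (0 : Eu 3) ∈ S) :
    ∃ s : ℝ, 0 < s ∧ s < 1 ∧
      (1 - s) • pt3 H (Sum.inl i) + s • pt3 H (Sum.inl j) ∈ convexHull ℝ S := by
  obtain ⟨a, b, hia, haj, hb, hside⟩ := exists_cross hm hH hC hij hadj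
  obtain ⟨A, B, C, D, hA, hB, hC', hD, e1, e2, e3⟩ :=
    exists_coeffs (i := i) (a := a) (j := j) (b := b) hia haj hb
  have hbi : b ≠ i := by rcases hb with h | h; exact h.ne; exact (hij.trans h).ne'
  have hbj : b ≠ j := by rcases hb with h | h; exact (h.trans hij).ne; exact h.ne'
  have hp : ∀ t : Fin m, hgt H t • pt3 H (Sum.inl t) = dir3 t := by
    intro t
    simp only [pt3]
    rw [smul_smul, mul_inv_cancel₀ (hgt_pos H t).ne', one_smul]
  have hlin : ∀ p q : ℕ, A * ell p q i + B * ell p q j = C * ell p q a + D * ell p q b := by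
    intro p q
    unfold ell
    linear_combination e3 - (p + q : ℝ) * e2 + (p * q : ℝ) * e1
  have hle : C * hgt H a + D * hgt H b ≤ A * hgt H i + B * hgt H j := by
    unfold hgt
    have hsum : C * ∑ c ∈ epairs H, max 0 (ell c.1 c.2 a) + D * ∑ c ∈ epairs H, max 0 (ell c.1 c.2 b)
        ≤ A * ∑ c ∈ epairs H, max 0 (ell c.1 c.2 i) + B * ∑ c ∈ epairs H, max 0 (ell c.1 c.2 j) := by
      rw [Finset.mul_sum, Finset.mul_sum, Finset.mul_sum, Finset.mul_sum,
        ← Finset.sum_add_distrib, ← Finset.sum_add_distrib]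
      apply Finset.sum_le_sum
      intro c hc
      simp only [epairs, Finset.mem_filter, Finset.mem_univ, true_and] at hc
      have m1 := le_max_left (0 : ℝ) (ell c.1 c.2 i)
      have m2 := le_max_right (0 : ℝ) (ell c.1 c.2 i)
      have m3 := le_max_left (0 : ℝ) (ell c.1 c.2 j)
      have m4 := le_max_right (0 : ℝ) (ell c.1 c.2 j)
      have hh := hlin c.1 c.2
      rcases hside c.1 c.2 hc.1 hc.2 with ⟨h1, h2⟩ | ⟨h1, h2⟩
      · rw [max_eq_right h1, max_eq_right h2, ← hh]
        nlinarith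
      · rw [max_eq_left h1, max_eq_left h2]
        nlinarith
    nlinarith
  apply cert_mem (hS a hia.ne' haj.ne) (hS b hbi hbj) h0
    (mul_pos hA (hgt_pos H i)) (mul_pos hB (hgt_pos H j)) (mul_pos hC' (hgt_pos H a)).le
    (mul_pos hD (hgt_pos H b)).le _ hle
  rw [mul_smul, mul_smul, mul_smul, mul_smul, hp, hp, hp, hp]
  ext k
  fin_cases k
  · simp [dir3]; linarith
  · simp [dir3]; linarith
  · simp [dir3]; linarith

theorem interior_pt3 (H : SimpleGraph (Fin m)) (hm : 3 ≤ m) :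
    (interior (convexHull ℝ (range (pt3 H)))).Nonempty := by
  set i0 : Fin m := ⟨0, by omega⟩
  set i1 : Fin m := ⟨1, by omega⟩
  set i2 : Fin m := ⟨2, by omega⟩
  set q : Fin 4 → Eu 3 := ![0, pt3 H (Sum.inl i0), pt3 H (Sum.inl i1), pt3 H (Sum.inl i2)] with hq
  have hind : AffineIndependent ℝ q := by
    rw [affineIndependent_iff_of_fintype]
    intro w hw0 hw1
    rw [Finset.univ.weightedVSub_eq_linear_combination hw0] at hw1
    have hs0 := inv_pos.mpr (hgt_pos H i0)
    have hs1 := inv_pos.mpr (hgt_pos H i1)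
    have hs2 := inv_pos.mpr (hgt_pos H i2)
    have c0 := congrFun hw1 0
    have c1 := congrFun hw1 1
    have c2 := congrFun hw1 2
    simp only [hq, pt3, dir3, Fin.sum_univ_four, Matrix.cons_val, Pi.add_apply, Pi.smul_apply,
      smul_eq_mul, Matrix.cons_val_zero, Matrix.cons_val_one, Pi.zero_apply, mul_zero, zero_add,
      mul_one, i0, i1, i2] at c0 c1 c2
    rw [Fin.sum_univ_four] at hw0
    norm_num at c0 c1 c2
    simp only [i0, i1, i2] at hs0 hs1 hs2
    have h3 : w 3 = 0 := by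
      have : w 3 * (hgt H 2)⁻¹ = 0 := by linarith
      rcases mul_eq_zero.mp this with h | h
      · exact h
      · exact absurd h hs2.ne'
    have h2 : w 2 = 0 := by
      rw [h3] at c0
      have : w 2 * (hgt H 1)⁻¹ = 0 := by linarith
      rcases mul_eq_zero.mp this with h | h
      · exact h
      · exact absurd h hs1.ne'
    have h1 : w 1 = 0 := by
      rw [h3, h2] at c2
      have : w 1 * (hgt H 0)⁻¹ = 0 := by linarith
      rcases mul_eq_zero.mp this with h | h
      · exact h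
      · exact absurd h hs0.ne'
    have h0 : w 0 = 0 := by linarith
    intro i
    fin_cases i
    · exact h0
    · exact h1
    · exact h2
    · exact h3
  have htop : affineSpan ℝ (range q) = ⊤ :=
    hind.affineSpan_eq_top_iff_card_eq_finrank_add_one.2 (by simp)
  have h1 : (interior (convexHull ℝ (range q))).Nonempty :=
    interior_convexHull_nonempty_iff_affineSpan_eq_top.mpr htop
  apply h1.mono
  apply interior_mono
  apply convexHull_mono
  rintro _ ⟨i, rfl⟩
  fin_cases i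
  · exact ⟨Sum.inr 0, rfl⟩
  · exact ⟨Sum.inl i0, rfl⟩
  · exact ⟨Sum.inl i1, rfl⟩
  · exact ⟨Sum.inl i2, rfl⟩

theorem polytopal_three (H : SimpleGraph (Fin m)) (hm : 3 ≤ m) (hH : NonCross H)
    (hC : HamCyc H) : IsPolytopal 3 (joinComplete H 1) := by
  classical
  have hlpt : ∀ (l : Eu 3 →ₗ[ℝ] ℝ) (t : Fin m),
      l (pt3 H (Sum.inl t)) = (hgt H t)⁻¹ * l (dir3 t) := by
    intro l t
    simp [pt3]
  have hedge : ∀ a b : Fin m, a < b → H.Adj a b → ∃ l : Eu 3 →ₗ[ℝ] ℝ,
      l (pt3 H (Sum.inl a)) = l (pt3 H (Sum.inl b)) ∧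
      ∀ y, y ≠ Sum.inl a → y ≠ Sum.inl b → l (pt3 H y) < l (pt3 H (Sum.inl a)) := by
    intro a b hab hadj
    obtain ⟨l, h1, h2, h3⟩ := exists_edge_functional hH hab hadj
    have ha : l (pt3 H (Sum.inl a)) = 1 := by
      rw [hlpt, h1, inv_mul_cancel₀ (hgt_pos H a).ne']
    have hb : l (pt3 H (Sum.inl b)) = 1 := by
      rw [hlpt, h2, inv_mul_cancel₀ (hgt_pos H b).ne']
    refine ⟨l, by rw [ha, hb], ?_⟩
    rintro (t | t) hta htb
    · rw [ha, hlpt]
      have := h3 t (fun e => hta (by rw [e])) (fun e => htb (by rw [e]))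
      have h4 := mul_lt_mul_of_pos_left this (inv_pos.mpr (hgt_pos H t))
      rwa [inv_mul_cancel₀ (hgt_pos H t).ne'] at h4
    · rw [ha]
      simp [pt3]
  have hapex : ∀ i : Fin m, ∃ l : Eu 3 →ₗ[ℝ] ℝ, l (pt3 H (Sum.inl i)) = 0 ∧
      ∀ t : Fin m, t ≠ i → l (pt3 H (Sum.inl t)) < 0 := by
    intro i
    refine ⟨lin3 (2 * (i : ℕ)) (-1) (-((i : ℕ) : ℝ) ^ 2), ?_, ?_⟩
    · rw [hlpt, lin3_dir3]; ring_nf
    · intro t ht
      rw [hlpt, lin3_dir3]
      have hne : ((t : ℕ) : ℝ) - (i : ℕ) ≠ 0 := by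
        rw [sub_ne_zero]
        intro h
        exact ht (Fin.ext (by exact_mod_cast h))
      have h2 : 0 < (((t : ℕ) : ℝ) - (i : ℕ)) ^ 2 := by positivity
      have h3 := inv_pos.mpr (hgt_pos H t)
      nlinarith [mul_pos h3 h2]
  have hi1 : ∀ i : Fin m, ∃ j : Fin m, H.Adj i j := by
    intro i
    exact ⟨⟨((i : ℕ) + 1) % m, Nat.mod_lt _ (by omega)⟩, hC _ _ rfl⟩
  apply isPolytopal_of' (joinComplete H 1) (pt3 H)
  · rintro (i | k)
    · obtain ⟨j, hj⟩ := hi1 i
      exact ⟨Sum.inl j, Sum.inr 0, by simp, hj, trivial⟩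
    · exact ⟨Sum.inl ⟨0, by omega⟩, Sum.inl ⟨1, by omega⟩, by simp, trivial, trivial⟩
  · rintro (a | a) (b | b) hab
    · have hadj : H.Adj a b := hab
      rcases lt_or_gt_of_ne hadj.ne with h | h
      · exact hedge a b h hadj
      · obtain ⟨l, h1, h2⟩ := hedge b a h hadj.symm
        exact ⟨l, h1.symm, fun y hya hyb => by rw [← h1]; exact h2 y hyb hya⟩
    · obtain ⟨l, h1, h2⟩ := hapex a
      refine ⟨l, by rw [h1]; simp [pt3], ?_⟩
      rintro (t | t) hta htb
      · rw [h1]; exact h2 t (fun e => hta (by rw [e]))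
      · exact absurd (congrArg Sum.inr (Subsingleton.elim t b)) htb
    · obtain ⟨l, h1, h2⟩ := hapex b
      refine ⟨l, by rw [h1]; simp [pt3], ?_⟩
      rintro (t | t) hta htb
      · have h3 := h2 t (fun e => htb (by rw [e]))
        have : l (pt3 H (Sum.inr a)) = 0 := by simp [pt3]
        rw [this]; exact h3
      · exact absurd (congrArg Sum.inr (Subsingleton.elim t a)) hta
    · exact absurd (Subsingleton.elim a b) hab
  · rintro (a | a) (b | b) hab hadj
    · have hab' : a ≠ b := fun e => hab (by rw [e])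
      have h0 : (0 : Eu 3) ∈ pt3 H '' {y | y ≠ Sum.inl a ∧ y ≠ Sum.inl b} :=
        ⟨Sum.inr 0, by simp, rfl⟩
      rcases lt_or_gt_of_ne hab' with h | h
      · apply nonedge_cert hm hH hC h hadj _ h0
        intro t h1 h2
        exact ⟨Sum.inl t, ⟨by simpa using h1, by simpa using h2⟩, rfl⟩
      · obtain ⟨s, hs0, hs1, hs⟩ := nonedge_cert (S := pt3 H '' {y | y ≠ Sum.inl a ∧ y ≠ Sum.inl b})
          hm hH hC h (fun h' => hadj (H.symm.symm _ _ h')) (by
            intro t h1 h2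
            exact ⟨Sum.inl t, ⟨by simpa using h2, by simpa using h1⟩, rfl⟩) h0
        refine ⟨1 - s, by linarith, by linarith, ?_⟩
        have e : (1 - (1 - s)) • pt3 H (Sum.inl a) + (1 - s) • pt3 H (Sum.inl b)
            = (1 - s) • pt3 H (Sum.inl b) + s • pt3 H (Sum.inl a) := by module
        rw [e]
        exact hs
    · exact absurd trivial hadj
    · exact absurd trivial hadj
    · exact absurd (congrArg Sum.inr (Subsingleton.elim a b)) hab
  · exact interior_pt3 H hm

end Geom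

end Pool.Agent.H.MP_2da123_co
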